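import Mathlib
import Pool.Agent.Helper57.BG.Stmts

/-!
# MP_8958e8, A': Abel summation (block G6)
-/

open Finset

namespace Pool.Agent.Helper26.AP

open Pool.Agent.Helper57.BG

lemma tele (F : ℕ → ℂ) {w N : ℕ} (h : w ≤ N) : ∑ t ∈ Ico w N, (F (t + 1) - F t) = F N - F w := by
  induction N, h using Nat.le_induction with
  | base => simp
  | succ n hn ih => rw [Finset.sum_Ico_succ_top hn, ih]; ring

theorem ab : Stmt_AB := by
  intro W P hP hW F B hB hF a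
  set N := ⌊2 * P⌋₊ with hN
  set M := ⌊P⌋₊ with hM
  have hP0 : (0 : ℝ) < P := by linarith
  have hMN : M + 1 ≤ N := by
    have h1 : (M : ℝ) ≤ P := Nat.floor_le hP0.le
    rw [hN]
    apply Nat.le_floor
    push_cast
    linarith
  have hMP : P < (M : ℝ) + 1 := Nat.lt_floor_add_one P
  have hN2 : (N : ℝ) ≤ 2 * P := Nat.floor_le (by linarith)
  have hNP : P < (N : ℝ) := by
    have : ((M + 1 : ℕ) : ℝ) ≤ N := by exact_mod_cast hMN
    push_cast at this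
    linarith
  have hB0 : 0 ≤ B := (norm_nonneg _).trans (hB N hNP hN2)
  have hWr : ∀ w ∈ W, M + 1 ≤ w ∧ w ≤ N := by
    intro w hw
    obtain ⟨h1, h2⟩ := hW w hw
    refine ⟨?_, Nat.le_floor h2⟩
    by_contra hc
    have h3 : w ≤ M := by omega
    have h4 : (w : ℝ) ≤ M := by exact_mod_cast h3
    have h5 : (M : ℝ) ≤ P := Nat.floor_le hP0.le
    linarith
  set A : ℕ → ℂ := fun t => ∑ w ∈ W.filter (fun w => w ≤ t), a w with hA
  -- Abel summation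
  have e1 : ∑ w ∈ W, F w * a w = F N * ∑ w ∈ W, a w -
      ∑ t ∈ Ico (M + 1) N, (F ((t + 1 : ℕ) : ℝ) - F (t : ℝ)) * A t := by
    have h1 : ∀ w ∈ W, F w * a w = F N * a w -
        ∑ t ∈ (Ico (M + 1) N).filter (fun t => w ≤ t), (F ((t + 1 : ℕ) : ℝ) - F (t : ℝ)) * a w := by
      intro w hw
      obtain ⟨hw1, hw2⟩ := hWr w hw
      have h2 : (Ico (M + 1) N).filter (fun t => w ≤ t) = Ico w N := by
        ext t
        simp only [mem_filter, mem_Ico]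
        omega
      rw [h2, ← Finset.sum_mul]
      have h3 := tele (fun t : ℕ => F (t : ℝ)) hw2
      rw [h3]
      ring
    rw [Finset.sum_congr rfl h1, Finset.sum_sub_distrib, ← Finset.mul_sum]
    congr 1
    simp only [hA, Finset.sum_filter, Finset.mul_sum]
    rw [Finset.sum_comm]
    refine Finset.sum_congr rfl fun t _ => Finset.sum_congr rfl fun w _ => ?_
    split_ifs <;> simp
  have hsub : Ico (M + 1) N ⊆ Ioc M N := by
    intro t ht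
    simp only [mem_Ico, mem_Ioc] at ht ⊢
    omega
  have hcard : ((Ico (M + 1) N).card : ℝ) ≤ P := by
    rw [Nat.card_Ico, Nat.cast_sub hMN]
    push_cast
    linarith
  have e2 : ‖∑ t ∈ Ico (M + 1) N, (F ((t + 1 : ℕ) : ℝ) - F (t : ℝ)) * A t‖ ≤
      B / P * ∑ t ∈ Ico (M + 1) N, ‖A t‖ := by
    refine (norm_sum_le _ _).trans ?_
    rw [Finset.mul_sum]
    refine Finset.sum_le_sum fun t ht => ?_
    rw [mem_Ico] at ht
    rw [norm_mul]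
    refine mul_le_mul_of_nonneg_right ?_ (norm_nonneg _)
    have h1 : ((M + 1 : ℕ) : ℝ) ≤ t := by exact_mod_cast ht.1
    have h2 : ((t + 1 : ℕ) : ℝ) ≤ N := by exact_mod_cast ht.2
    push_cast at h1 h2 ⊢
    have h3 := hF ((t : ℝ) + 1) t (by linarith) (by linarith) (by linarith) (by linarith)
    rw [show (t : ℝ) + 1 - t = 1 by ring, abs_one, mul_one] at h3
    exact h3
  have e3 : (∑ t ∈ Ico (M + 1) N, ‖A t‖) ^ 2 ≤ P * ∑ t ∈ Ioc M N, ‖A t‖ ^ 2 := by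
    calc (∑ t ∈ Ico (M + 1) N, ‖A t‖) ^ 2 ≤ (Ico (M + 1) N).card * ∑ t ∈ Ico (M + 1) N, ‖A t‖ ^ 2 :=
          sq_sum_le_card_mul_sum_sq
      _ ≤ P * ∑ t ∈ Ico (M + 1) N, ‖A t‖ ^ 2 :=
          mul_le_mul_of_nonneg_right hcard (Finset.sum_nonneg fun _ _ => sq_nonneg _)
      _ ≤ P * ∑ t ∈ Ioc M N, ‖A t‖ ^ 2 :=
          mul_le_mul_of_nonneg_left (Finset.sum_le_sum_of_subset_of_nonneg hsub
            fun _ _ _ => sq_nonneg _) hP0.le
  have e4 : ‖F N‖ ≤ B := hB N hNP hN2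
  have e5 : ‖∑ w ∈ W, F w * a w‖ ≤ B * ‖∑ w ∈ W, a w‖ + B / P * ∑ t ∈ Ico (M + 1) N, ‖A t‖ := by
    rw [e1]
    refine (norm_sub_le _ _).trans (add_le_add ?_ e2)
    rw [norm_mul]
    exact mul_le_mul_of_nonneg_right e4 (norm_nonneg _)
  have hS0 : 0 ≤ ∑ t ∈ Ico (M + 1) N, ‖A t‖ := Finset.sum_nonneg fun _ _ => norm_nonneg _
  calc ‖∑ w ∈ W, F w * a w‖ ^ 2
      ≤ (B * ‖∑ w ∈ W, a w‖ + B / P * ∑ t ∈ Ico (M + 1) N, ‖A t‖) ^ 2 :=
        pow_le_pow_left₀ (norm_nonneg _) e5 2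
    _ ≤ 2 * B ^ 2 * ‖∑ w ∈ W, a w‖ ^ 2 + 2 * (B / P) ^ 2 * (∑ t ∈ Ico (M + 1) N, ‖A t‖) ^ 2 := by
        nlinarith [sq_nonneg (B * ‖∑ w ∈ W, a w‖ - B / P * ∑ t ∈ Ico (M + 1) N, ‖A t‖)]
    _ ≤ 2 * B ^ 2 * ‖∑ w ∈ W, a w‖ ^ 2 + 2 * (B / P) ^ 2 * (P * ∑ t ∈ Ioc M N, ‖A t‖ ^ 2) := by
        have := mul_le_mul_of_nonneg_left e3 (show (0 : ℝ) ≤ 2 * (B / P) ^ 2 by positivity)
        linarith
    _ = 2 * B ^ 2 * ‖∑ w ∈ W, a w‖ ^ 2 +
      2 * B ^ 2 / P * ∑ t ∈ Ioc M N, ‖∑ w ∈ W.filter (fun w => w ≤ t), a w‖ ^ 2 := by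
        rw [hA]
        field_simp

end Pool.Agent.Helper26.AP
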