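import Mathlib
import Pool.Agent.Helper57.BG.Stmts
import Pool.Agent.Helper8.AP.Ph

/-!
# MP_8958e8, A': the second Cauchy inequality for a small modulus (block G5)
-/

open Finset

namespace Pool.Agent.Helper26.AP

open Pool.Agent.Helper57.BG

/-- number of integers of a class in an interval -/
lemma card_class (A ρ : ℤ) (N h : ℕ) (hh : 0 < h) :
    (((Finset.Ioc A (A + N)).filter (fun n => n ≡ ρ [ZMOD h])).card : ℝ) ≤ (N : ℝ) / h + 1 := by
  have hh' : (0 : ℤ) < h := by exact_mod_cast hh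
  have key := Int.Ioc_filter_modEq_card A (A + N) hh' ρ
  have hq : (0 : ℚ) < h := by exact_mod_cast hh
  have h1 : ((⌊((A + N : ℤ) - ρ : ℚ) / ((h : ℤ) : ℚ)⌋ : ℤ) : ℚ) ≤
      ((A + N : ℤ) - ρ : ℚ) / ((h : ℤ) : ℚ) := Int.floor_le _
  have h2 : ((A - ρ : ℚ) / ((h : ℤ) : ℚ)) < ((⌊(A - ρ : ℚ) / ((h : ℤ) : ℚ)⌋ : ℤ) : ℚ) + 1 :=
    Int.lt_floor_add_one _
  have h3 : (((A + N : ℤ) - ρ : ℚ) / ((h : ℤ) : ℚ)) =
      ((A - ρ : ℚ) / ((h : ℤ) : ℚ)) + (N : ℚ) / h := by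
    push_cast
    field_simp
    ring
  have h4 : ((((Finset.Ioc A (A + N)).filter (fun n => n ≡ ρ [ZMOD h])).card : ℤ) : ℚ) ≤
      (N : ℚ) / h + 1 := by
    rw [key]
    push_cast
    rw [max_le_iff]
    constructor
    · push_cast at h1 h2 h3
      linarith
    · positivity
  have h5 : ((((Finset.Ioc A (A + N)).filter (fun n => n ≡ ρ [ZMOD h])).card : ℚ)) ≤
      (N : ℚ) / h + 1 := by exact_mod_cast h4
  have h6 : (((((Finset.Ioc A (A + N)).filter (fun n => n ≡ ρ [ZMOD h])).card : ℚ)) : ℝ) ≤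
      (((N : ℚ) / h + 1 : ℚ) : ℝ) := by exact_mod_cast h5
  push_cast at h6
  exact h6

/-- number of natural numbers of a class in `[1, N]` -/
lemma card_class_nat (N h : ℕ) (hh : 0 < h) (z : ZMod h) :
    (((Icc 1 N).filter (fun n : ℕ => (n : ZMod h) = z)).card : ℝ) ≤ (N : ℝ) / h + 1 := by
  have : NeZero h := ⟨hh.ne'⟩
  refine le_trans ?_ (card_class 0 z.val N h hh)
  rw [zero_add]
  have h1 : ((Icc 1 N).filter (fun n : ℕ => (n : ZMod h) = z)).image (fun n : ℕ => (n : ℤ)) ⊆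
      (Finset.Ioc (0 : ℤ) N).filter (fun n => n ≡ z.val [ZMOD h]) := by
    intro m hm
    simp only [mem_image, mem_filter, mem_Icc, mem_Ioc] at hm ⊢
    obtain ⟨n, ⟨⟨hn1, hn2⟩, hn3⟩, rfl⟩ := hm
    refine ⟨⟨by omega, by exact_mod_cast hn2⟩, ?_⟩
    rw [← ZMod.intCast_eq_intCast_iff]
    push_cast
    rw [ZMod.natCast_zmod_val, hn3]
  have h2 := Finset.card_le_card h1
  rw [Finset.card_image_of_injective _ Nat.cast_injective] at h2
  exact_mod_cast h2

/-- number of the members of `W` in a class -/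
lemma card_class_W (W : Finset ℕ) (P : ℝ) (hP : 1 ≤ P) (hW : ∀ w ∈ W, P < w ∧ (w : ℝ) ≤ 2 * P)
    (h : ℕ) (hh : 0 < h) (w' : ℕ) :
    ((W.filter (fun w => w ≡ w' [MOD h])).card : ℝ) ≤ 1 + P / h := by
  rcases (W.filter (fun w => w ≡ w' [MOD h])).eq_empty_or_nonempty with he | hne
  · rw [he]
    simp only [card_empty, Nat.cast_zero]
    positivity
  obtain ⟨w0, hw0⟩ := hne
  set U := W.filter (fun w => w ≡ w' [MOD h]) with hU
  -- the smallest member
  set m := U.min' ⟨w0, hw0⟩ with hm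
  have hmU : m ∈ U := U.min'_mem _
  have hhR : (0 : ℝ) < h := by exact_mod_cast hh
  have key : ∀ w ∈ U, ∃ j : ℕ, w = m + j * h := by
    intro w hw
    have h1 : m ≤ w := U.min'_le w hw
    have h2 : m ≡ w [MOD h] := by
      rw [hU, mem_filter] at hw hmU
      exact hmU.2.trans hw.2.symm
    obtain ⟨j, hj⟩ := (Nat.modEq_iff_dvd' h1).1 h2
    exact ⟨j, by rw [Nat.mul_comm j h, ← hj]; omega⟩
  have hsub : U ⊆ (Finset.range (⌊P / h⌋₊ + 1)).image (fun j => m + j * h) := by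
    intro w hw
    obtain ⟨j, hj⟩ := key w hw
    rw [mem_image]
    refine ⟨j, ?_, hj.symm⟩
    rw [mem_range, Nat.lt_succ_iff]
    apply Nat.le_floor
    rw [le_div_iff₀ hhR]
    have h1 := hW w (mem_of_mem_filter w hw)
    have h2 := hW m (mem_of_mem_filter m hmU)
    have h3 : (w : ℝ) = m + j * h := by rw [hj]; push_cast; ring
    linarith [h1.2, h2.1]
  have h1 := (Finset.card_le_card hsub).trans Finset.card_image_le
  rw [card_range] at h1
  have h2 : ((U.card : ℕ) : ℝ) ≤ ((⌊P / h⌋₊ + 1 : ℕ) : ℝ) := by exact_mod_cast h1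
  push_cast at h2
  have h3 : ((⌊P / h⌋₊ : ℕ) : ℝ) ≤ P / h := Nat.floor_le (by positivity)
  linarith

/-- orthogonality and the Cauchy inequality -/
lemma full_sum {x : ℕ} [NeZero x] {ι : Type*} (U : Finset ι) (μ : ι → ℂ) (β : ι → ZMod x)
    (hμ : ∀ i ∈ U, ‖μ i‖ ≤ 1) (K : ℝ)
    (hK : ∀ i ∈ U, ((U.filter (fun j => β i = β j)).card : ℝ) ≤ K) :
    ∑ m : ZMod x, ‖∑ i ∈ U, μ i * ZMod.stdAddChar (m * β i)‖ ^ 2 ≤ x * (U.card * K) := by
  classical
  have h1 : ∀ m : ZMod x, ((‖∑ i ∈ U, μ i * ZMod.stdAddChar (m * β i)‖ ^ 2 : ℝ) : ℂ) =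
      ∑ i ∈ U, ∑ j ∈ U, μ i * (starRingEnd ℂ) (μ j) * ZMod.stdAddChar (m * (β i - β j)) := by
    intro m
    rw [Complex.ofReal_pow, ← Complex.mul_conj', map_sum, Finset.sum_mul_sum]
    refine Finset.sum_congr rfl fun i _ => Finset.sum_congr rfl fun j _ => ?_
    have h5 : (ZMod.stdAddChar (m * (β i - β j)) : ℂ) =
        ZMod.stdAddChar (m * β i) * (starRingEnd ℂ) (ZMod.stdAddChar (m * β j)) := by
      rw [mul_sub, sub_eq_add_neg, AddChar.map_add_eq_mul, AddChar.map_neg_eq_conj]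
    rw [h5, RingHom.map_mul]
    ring
  have h2 : ((∑ m : ZMod x, ‖∑ i ∈ U, μ i * ZMod.stdAddChar (m * β i)‖ ^ 2 : ℝ) : ℂ) =
      ∑ i ∈ U, ∑ j ∈ U, μ i * (starRingEnd ℂ) (μ j) * (if β i = β j then (x : ℂ) else 0) := by
    push_cast
    have h1' : ∀ m : ZMod x, (‖∑ i ∈ U, μ i * ZMod.stdAddChar (m * β i)‖ : ℂ) ^ 2 =
      ∑ i ∈ U, ∑ j ∈ U, μ i * (starRingEnd ℂ) (μ j) * ZMod.stdAddChar (m * (β i - β j)) := by
      intro m
      rw [← h1 m]
      push_cast
      rfl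
    rw [Finset.sum_congr rfl fun m _ => h1' m, Finset.sum_comm]
    refine Finset.sum_congr rfl fun i _ => ?_
    rw [Finset.sum_comm]
    refine Finset.sum_congr rfl fun j _ => ?_
    rw [← Finset.mul_sum]
    congr 1
    have h3 := AddChar.sum_mulShift (β i - β j) (ZMod.isPrimitive_stdAddChar x)
    rw [h3]
    simp only [sub_eq_zero, ZMod.card]
    split_ifs <;> simp
  have h4 : ‖((∑ m : ZMod x, ‖∑ i ∈ U, μ i * ZMod.stdAddChar (m * β i)‖ ^ 2 : ℝ) : ℂ)‖ =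
      ∑ m : ZMod x, ‖∑ i ∈ U, μ i * ZMod.stdAddChar (m * β i)‖ ^ 2 := by
    rw [Complex.norm_real, Real.norm_of_nonneg]
    exact Finset.sum_nonneg fun _ _ => sq_nonneg _
  rw [← h4, h2]
  calc ‖∑ i ∈ U, ∑ j ∈ U, μ i * (starRingEnd ℂ) (μ j) * (if β i = β j then (x : ℂ) else 0)‖
      ≤ ∑ i ∈ U, ∑ j ∈ U, (if β i = β j then (x : ℝ) else 0) := by
        refine (norm_sum_le _ _).trans (Finset.sum_le_sum fun i hi => ?_)
        refine (norm_sum_le _ _).trans (Finset.sum_le_sum fun j hj => ?_)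
        rw [norm_mul, norm_mul, RCLike.norm_conj]
        have h5 : ‖μ i‖ * ‖μ j‖ ≤ 1 := mul_le_one₀ (hμ i hi) (norm_nonneg _) (hμ j hj)
        split_ifs
        · rw [Complex.norm_natCast]
          have := mul_le_mul_of_nonneg_right h5 (Nat.cast_nonneg (α := ℝ) x)
          linarith
        · simp
    _ = ∑ i ∈ U, (x : ℝ) * ((U.filter (fun j => β i = β j)).card : ℝ) := by
        refine Finset.sum_congr rfl fun i _ => ?_
        rw [← Finset.sum_filter, Finset.sum_const, nsmul_eq_mul]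
        ring
    _ ≤ ∑ i ∈ U, (x : ℝ) * K := by
        refine Finset.sum_le_sum fun i hi => ?_
        exact mul_le_mul_of_nonneg_left (hK i hi) (Nat.cast_nonneg _)
    _ = x * (U.card * K) := by
        rw [Finset.sum_const, nsmul_eq_mul]
        ring

theorem sc0 : Stmt_SC0 := by
  intro W P hP hW x N hx c a ha lam hlam
  have : NeZero x := ⟨hx.ne'⟩
  classical
  set U := W.filter (fun w => Nat.Coprime w x) with hU
  set G : ZMod x → ℝ := fun m =>
    ‖∑ w ∈ U, lam w * ZMod.stdAddChar (m * ((c : ZMod x) * (a : ZMod x)⁻¹ * (w : ZMod x)⁻¹))‖ ^ 2 with hG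
  have hG0 : ∀ m, 0 ≤ G m := fun m => sq_nonneg _
  have haU : (a : ZMod x) * (a : ZMod x)⁻¹ = 1 := ZMod.coe_int_mul_inv_eq_one (Int.isCoprime_iff_gcd_eq_one.2 ha)
  have hwU : ∀ w ∈ U, (w : ZMod x) * (w : ZMod x)⁻¹ = 1 := by
    intro w hw
    exact ZMod.coe_mul_inv_eq_one w (mem_filter.1 hw).2
  have e1 : ∀ n ∈ (Icc 1 N).filter (fun n => Nat.Coprime n x),
      ‖∑ w ∈ U, lam w * ph x c (a * n * w)‖ ^ 2 = G ((n : ZMod x)⁻¹) := by
    intro n hn
    rw [mem_filter] at hn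
    have hn1 : (n : ZMod x) * (n : ZMod x)⁻¹ = 1 := ZMod.coe_mul_inv_eq_one n hn.2
    rw [hG]
    simp only
    congr 2
    refine Finset.sum_congr rfl fun w hw => ?_
    rw [Pool.Agent.Helper8.AP.ph_eq_std]
    congr 2
    have e3 : ((a * n * w : ℤ) : ZMod x) * ((a : ZMod x)⁻¹ * (n : ZMod x)⁻¹ * (w : ZMod x)⁻¹) = 1 := by
      push_cast
      calc (a : ZMod x) * n * w * ((a : ZMod x)⁻¹ * (n : ZMod x)⁻¹ * (w : ZMod x)⁻¹) =
          ((a : ZMod x) * (a : ZMod x)⁻¹) * ((n : ZMod x) * (n : ZMod x)⁻¹) *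
            ((w : ZMod x) * (w : ZMod x)⁻¹) := by ring
        _ = 1 := by rw [haU, hn1, hwU w hw]; ring
    rw [ZMod.inv_eq_of_mul_eq_one x _ _ e3]
    ring
  rw [Finset.sum_congr rfl e1]
  -- the classes
  have hx0 : (0 : ℝ) < x := by exact_mod_cast hx
  have e4 : ∑ n ∈ (Icc 1 N).filter (fun n => Nat.Coprime n x), G ((n : ZMod x)⁻¹) ≤
      ((N : ℝ) / x + 1) * ∑ m : ZMod x, G m := by
    rw [← Finset.sum_fiberwise_of_maps_to (s := (Icc 1 N).filter (fun n => Nat.Coprime n x))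
      (t := (Finset.univ : Finset (ZMod x))) (g := fun n : ℕ => ((n : ZMod x)⁻¹))
      (fun _ _ => Finset.mem_univ _), Finset.mul_sum]
    refine Finset.sum_le_sum fun m _ => ?_
    rw [Finset.sum_congr rfl (g := fun _ => G m)
      (fun n hn => by rw [(mem_filter.1 hn).2]), Finset.sum_const, nsmul_eq_mul]
    refine mul_le_mul_of_nonneg_right ?_ (hG0 m)
    refine le_trans ?_ (card_class_nat N x hx m⁻¹)
    refine Nat.cast_le.2 (Finset.card_le_card ?_)
    intro n hn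
    simp only [mem_filter] at hn ⊢
    refine ⟨hn.1.1, ?_⟩
    have h1 : (n : ZMod x) * (n : ZMod x)⁻¹ = 1 := ZMod.coe_mul_inv_eq_one n hn.1.2
    rw [hn.2] at h1
    rw [mul_comm] at h1
    exact (ZMod.inv_eq_of_mul_eq_one x _ _ h1).symm
  -- the pairs
  set g : ℕ := Int.gcd c x with hg
  have hg0 : 0 < g := Int.gcd_pos_of_ne_zero_right _ (by exact_mod_cast hx.ne')
  have hgx : g ∣ x := by
    have := Int.gcd_dvd_right c (x : ℤ)
    exact_mod_cast this
  obtain ⟨q, hq⟩ := hgx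
  have hq0 : 0 < q := by
    rcases Nat.eq_zero_or_pos q with h | h
    · rw [h, mul_zero] at hq
      omega
    · exact h
  have hpair : ∀ w ∈ U, ∀ w' ∈ U,
      (c : ZMod x) * (a : ZMod x)⁻¹ * (w : ZMod x)⁻¹ = (c : ZMod x) * (a : ZMod x)⁻¹ * (w' : ZMod x)⁻¹ →
      w' ≡ w [MOD q] := by
    intro w hw w' hw' h
    have h1 : (c : ZMod x) * (w' : ZMod x) = (c : ZMod x) * (w : ZMod x) := by
      calc (c : ZMod x) * (w' : ZMod x) =
          ((a : ZMod x) * (a : ZMod x)⁻¹) * ((w : ZMod x) * (w : ZMod x)⁻¹) * ((c : ZMod x) * (w' : ZMod x)) := by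
            rw [haU, hwU w hw]; ring
        _ = (a : ZMod x) * w * w' * ((c : ZMod x) * (a : ZMod x)⁻¹ * (w : ZMod x)⁻¹) := by ring
        _ = (a : ZMod x) * w * w' * ((c : ZMod x) * (a : ZMod x)⁻¹ * (w' : ZMod x)⁻¹) := by rw [h]
        _ = ((a : ZMod x) * (a : ZMod x)⁻¹) * ((w' : ZMod x) * (w' : ZMod x)⁻¹) * ((c : ZMod x) * (w : ZMod x)) := by
            ring
        _ = (c : ZMod x) * (w : ZMod x) := by rw [haU, hwU w' hw']; ring
    have h2 : ((c * (w' : ℤ) : ℤ) : ZMod x) = ((c * (w : ℤ) : ℤ) : ZMod x) := by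
      push_cast
      exact h1
    rw [ZMod.intCast_eq_intCast_iff, Int.modEq_iff_dvd] at h2
    have h3 : (x : ℤ) ∣ c * ((w : ℤ) - w') := by rwa [mul_sub]
    have h4 : (q : ℤ) ∣ (w : ℤ) - w' := by
      obtain ⟨c', hc'⟩ := Int.gcd_dvd_left c (x : ℤ)
      rw [← hg] at hc'
      have hcop : Int.gcd c' q = 1 := by
        have h5 := Int.gcd_mul_left (g : ℤ) c' (q : ℤ)
        have h6 : Int.gcd ((g : ℤ) * c') ((g : ℤ) * q) = g := by
          rw [← hc', hg]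
          congr 1
          rw [← hg]
          exact_mod_cast hq.symm
        rw [h6, Int.natAbs_natCast] at h5
        exact Nat.eq_of_mul_eq_mul_left hg0 (by rw [← h5, mul_one])
      have h7 : ((g : ℤ) * q) ∣ (g : ℤ) * (c' * ((w : ℤ) - w')) := by
        have h8 : (x : ℤ) = g * q := by exact_mod_cast hq
        rw [← h8, ← mul_assoc, ← hc']
        exact h3
      have h9 : (q : ℤ) ∣ c' * ((w : ℤ) - w') :=
        Int.dvd_of_mul_dvd_mul_left (by exact_mod_cast hg0.ne') h7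
      exact Int.dvd_of_dvd_mul_right_of_gcd_one h9 (by rw [Int.gcd_comm]; exact hcop)
    rw [Nat.modEq_iff_dvd]
    exact h4
  have hK : ∀ w ∈ U, ((U.filter (fun w' : ℕ => (c : ZMod x) * (a : ZMod x)⁻¹ * (w : ZMod x)⁻¹ =
      (c : ZMod x) * (a : ZMod x)⁻¹ * (w' : ZMod x)⁻¹)).card : ℝ) ≤ 1 + P / q := by
    intro w hw
    refine le_trans (Nat.cast_le.2 (Finset.card_le_card ?_)) (card_class_W W P hP hW q hq0 w)
    intro w' hw'
    rw [mem_filter] at hw' ⊢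
    exact ⟨(mem_filter.1 hw'.1).1, hpair w hw w' hw'.1 hw'.2⟩
  have e5 := full_sum U lam (fun w => (c : ZMod x) * (a : ZMod x)⁻¹ * (w : ZMod x)⁻¹)
    (fun w _ => hlam w) (1 + P / q) hK
  have hUW : (U.card : ℝ) ≤ W.card := Nat.cast_le.2 (Finset.card_filter_le _ _)
  have hPq : P / q = P * (g : ℝ) / x := by
    have h1 : (x : ℝ) = g * q := by exact_mod_cast hq
    have h2 : (g : ℝ) ≠ 0 := by exact_mod_cast hg0.ne'
    have h3 : (q : ℝ) ≠ 0 := by exact_mod_cast hq0.ne'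
    rw [h1]
    field_simp
  have hpos : (0 : ℝ) ≤ 1 + P / q := by positivity
  calc ∑ n ∈ (Icc 1 N).filter (fun n => Nat.Coprime n x), G ((n : ZMod x)⁻¹)
      ≤ ((N : ℝ) / x + 1) * ∑ m : ZMod x, G m := e4
    _ ≤ ((N : ℝ) / x + 1) * (x * (U.card * (1 + P / q))) :=
        mul_le_mul_of_nonneg_left e5 (by positivity)
    _ ≤ ((N : ℝ) / x + 1) * (x * (W.card * (1 + P / q))) := by
        refine mul_le_mul_of_nonneg_left (mul_le_mul_of_nonneg_left ?_ hx0.le) (by positivity)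
        exact mul_le_mul_of_nonneg_right hUW hpos
    _ = ((N : ℝ) + x) * (W.card + W.card * (P * (g : ℕ) / x)) := by
        rw [hPq]
        have h1 : ((N : ℝ) / x + 1) * x = N + x := by
          rw [add_mul, div_mul_cancel₀ _ hx0.ne', one_mul]
        rw [← mul_assoc, h1]
        ring

end Pool.Agent.Helper26.AP
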