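import Mathlib
import Pool.Agent.Helper57.BG.Stmts
import Pool.Agent.Helper8.AP.Ph
import Pool.Agent.Helper26.AP.AB
import Pool.Agent.Helper26.AP.SC0

/-!
# MP_8958e8, A': the second Cauchy inequality with weights, small modulus (block G13b)
-/

open Finset

namespace Pool.Agent.Helper26.AP

open Pool.Agent.Helper57.BG

lemma card_W_le (W : Finset ℕ) (P : ℝ) (hP : 1 ≤ P) (hW : ∀ w ∈ W, P < w ∧ (w : ℝ) ≤ 2 * P) :
    (W.card : ℝ) ≤ 2 * P := by
  have h := card_class_W W P hP hW 1 one_pos 0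
  have h1 : W.filter (fun w => w ≡ 0 [MOD 1]) = W := by
    apply Finset.filter_true_of_mem
    intro w _
    exact Nat.modEq_one
  rw [h1] at h
  push_cast at h
  rw [div_one] at h
  linarith

/-- sums over points with multiplicity -/
lemma mult_sum {ι : Type*} [DecidableEq ι] (X : Finset ι) (nn : ι → ℕ) (U : Finset ℕ) (R0 : ℝ)
    (hX : ∀ x ∈ X, nn x ∈ U) (hmult : ∀ n, ((X.filter (fun x => nn x = n)).card : ℝ) ≤ R0)
    (g : ℕ → ℝ) (hg : ∀ n, 0 ≤ g n) : ∑ x ∈ X, g (nn x) ≤ R0 * ∑ n ∈ U, g n := by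
  rw [← Finset.sum_fiberwise_of_maps_to (s := X) (t := U) (g := nn) hX, Finset.mul_sum]
  refine Finset.sum_le_sum fun n _ => ?_
  rw [Finset.sum_congr rfl (g := fun _ => g n) (fun x hx => by rw [(mem_filter.1 hx).2]),
    Finset.sum_const, nsmul_eq_mul]
  exact mul_le_mul_of_nonneg_right (hmult n) (hg n)

theorem sc0f : Stmt_SC0F := by
  intro W P hP hW v N hv c a ha lam hlam ι _ X nn w1 R0 B hB0 hX hmult F hB hF
  set K : ℝ := ((N : ℝ) + v) * (2 * P + 2 * P * (P * (Int.gcd c v : ℕ) / v)) with hK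
  set W' := W.filter (fun w => Nat.Coprime w v) with hW'
  have hP0 : (0 : ℝ) < P := by linarith
  have hv0 : (0 : ℝ) < v := by exact_mod_cast hv
  have hR0 : 0 ≤ R0 := le_trans (Nat.cast_nonneg _) (hmult 0)
  have hK0 : 0 ≤ K := by rw [hK]; positivity
  have hWb : ∀ w ∈ W', P < w ∧ (w : ℝ) ≤ 2 * P := fun w hw => hW w (mem_of_mem_filter w hw)
  set A : ℕ → ℕ → ℂ := fun t n => ∑ w ∈ W'.filter (fun w => w ≤ t), lam w * ph v c (a * n * w) with hA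
  -- the sum over n for every t
  have hS : ∀ t : ℕ, ∑ x ∈ X, ‖A t (nn x)‖ ^ 2 ≤ R0 * K := by
    intro t
    have h1 : ∀ x ∈ X, nn x ∈ (Icc 1 N).filter (fun n => Nat.Coprime n v) := by
      intro x hx
      obtain ⟨h1, h2, h3⟩ := hX x hx
      rw [mem_filter, mem_Icc]
      exact ⟨⟨h1, h2⟩, h3⟩
    refine (mult_sum X nn _ R0 h1 hmult (fun n => ‖A t n‖ ^ 2) (fun n => sq_nonneg _)).trans ?_
    refine mul_le_mul_of_nonneg_left ?_ hR0
    have h2 := sc0 (W.filter (fun w => w ≤ t)) P hP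
      (fun w hw => hW w (mem_of_mem_filter w hw)) v N hv c a ha lam hlam
    have h3 : ∀ n : ℕ, A t n = ∑ w ∈ (W.filter (fun w => w ≤ t)).filter (fun w => Nat.Coprime w v),
        lam w * ph v c (a * n * w) := by
      intro n
      rw [hA, hW', Finset.filter_comm]
    simp only [h3]
    refine h2.trans ?_
    rw [hK]
    have h4 : (((W.filter (fun w => w ≤ t)).card : ℕ) : ℝ) ≤ 2 * P :=
      card_W_le _ P hP (fun w hw => hW w (mem_of_mem_filter w hw))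
    have h5 : (0 : ℝ) ≤ P * (Int.gcd c v : ℕ) / v := by positivity
    refine mul_le_mul_of_nonneg_left ?_ (by positivity)
    have h6 := mul_le_mul_of_nonneg_right h4 h5
    linarith
  -- Abel
  have hfull : ∀ x ∈ X, ‖∑ w ∈ W', lam w * F x w * ph v c (a * nn x * w)‖ ^ 2 ≤
      2 * B ^ 2 * ‖A ⌊2 * P⌋₊ (nn x)‖ ^ 2 +
        2 * B ^ 2 / P * ∑ t ∈ Ioc ⌊P⌋₊ ⌊2 * P⌋₊, ‖A t (nn x)‖ ^ 2 := by
    intro x hx
    have h1 := ab W' P hP hWb (F x) B (hB x hx) (hF x hx) (fun w => lam w * ph v c (a * nn x * w))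
    have h2 : ∑ w ∈ W', F x w * (lam w * ph v c (a * nn x * w)) =
        ∑ w ∈ W', lam w * F x w * ph v c (a * nn x * w) :=
      Finset.sum_congr rfl fun w _ => by ring
    have h3 : ∑ w ∈ W', lam w * ph v c (a * nn x * w) = A ⌊2 * P⌋₊ (nn x) := by
      rw [hA]
      simp only
      rw [Finset.filter_true_of_mem]
      intro w hw
      exact Nat.le_floor (hWb w hw).2
    rw [h2, h3] at h1
    exact h1
  have hcardt : ((Ioc ⌊P⌋₊ ⌊2 * P⌋₊).card : ℝ) ≤ 2 * P := by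
    rw [Nat.card_Ioc]
    have h1 : (⌊2 * P⌋₊ : ℝ) ≤ 2 * P := Nat.floor_le (by linarith)
    have h2 : P < (⌊P⌋₊ : ℝ) + 1 := Nat.lt_floor_add_one P
    have h3 : ⌊P⌋₊ ≤ ⌊2 * P⌋₊ := Nat.floor_mono (by linarith)
    rw [Nat.cast_sub h3]
    linarith
  have hsum : ∑ x ∈ X, ‖∑ w ∈ W', lam w * F x w * ph v c (a * nn x * w)‖ ^ 2 ≤ 6 * B ^ 2 * R0 * K := by
    calc ∑ x ∈ X, ‖∑ w ∈ W', lam w * F x w * ph v c (a * nn x * w)‖ ^ 2
        ≤ ∑ x ∈ X, (2 * B ^ 2 * ‖A ⌊2 * P⌋₊ (nn x)‖ ^ 2 +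
          2 * B ^ 2 / P * ∑ t ∈ Ioc ⌊P⌋₊ ⌊2 * P⌋₊, ‖A t (nn x)‖ ^ 2) := Finset.sum_le_sum hfull
      _ = 2 * B ^ 2 * ∑ x ∈ X, ‖A ⌊2 * P⌋₊ (nn x)‖ ^ 2 +
          2 * B ^ 2 / P * ∑ t ∈ Ioc ⌊P⌋₊ ⌊2 * P⌋₊, ∑ x ∈ X, ‖A t (nn x)‖ ^ 2 := by
          rw [Finset.sum_add_distrib, ← Finset.mul_sum, ← Finset.mul_sum, Finset.sum_comm]
      _ ≤ 2 * B ^ 2 * (R0 * K) + 2 * B ^ 2 / P * ∑ t ∈ Ioc ⌊P⌋₊ ⌊2 * P⌋₊, R0 * K := by
          have h1 := mul_le_mul_of_nonneg_left (hS ⌊2 * P⌋₊) (show (0 : ℝ) ≤ 2 * B ^ 2 by positivity)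
          have h2 := mul_le_mul_of_nonneg_left (Finset.sum_le_sum
            (fun t (_ : t ∈ Ioc ⌊P⌋₊ ⌊2 * P⌋₊) => hS t)) (show (0 : ℝ) ≤ 2 * B ^ 2 / P by positivity)
          linarith
      _ = 2 * B ^ 2 * (R0 * K) + 2 * B ^ 2 / P * ((Ioc ⌊P⌋₊ ⌊2 * P⌋₊).card * (R0 * K)) := by
          rw [Finset.sum_const, nsmul_eq_mul]
      _ ≤ 2 * B ^ 2 * (R0 * K) + 2 * B ^ 2 / P * (2 * P * (R0 * K)) := by
          have h1 := mul_le_mul_of_nonneg_right hcardt (mul_nonneg hR0 hK0)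
          have h2 := mul_le_mul_of_nonneg_left h1 (show (0 : ℝ) ≤ 2 * B ^ 2 / P by positivity)
          linarith
      _ = 6 * B ^ 2 * R0 * K := by
          field_simp
          ring
  -- the left out prime
  have hone : ∀ x ∈ X, ‖∑ w ∈ W.filter (fun w => Nat.Coprime w v ∧ w ≠ w1 x),
        lam w * F x w * ph v c (a * nn x * w)‖ ≤
      ‖∑ w ∈ W', lam w * F x w * ph v c (a * nn x * w)‖ + B := by
    intro x hx
    have h1 : W.filter (fun w => Nat.Coprime w v ∧ w ≠ w1 x) = W'.erase (w1 x) := by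
      ext w
      simp only [hW', mem_filter, mem_erase]
      tauto
    rw [h1]
    by_cases h2 : w1 x ∈ W'
    · have h3 := Finset.add_sum_erase W' (fun w => lam w * F x w * ph v c (a * nn x * w)) h2
      have h4 : ∑ w ∈ W'.erase (w1 x), lam w * F x w * ph v c (a * nn x * w) =
          ∑ w ∈ W', lam w * F x w * ph v c (a * nn x * w) -
            lam (w1 x) * F x (w1 x) * ph v c (a * nn x * (w1 x : ℕ)) := by
        rw [← h3]
        ring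
      rw [h4]
      refine (norm_sub_le _ _).trans (add_le_add le_rfl ?_)
      rw [norm_mul, norm_mul]
      have h5 : ‖ph v c (a * nn x * (w1 x : ℕ))‖ = 1 := Pool.Agent.Helper8.AP.norm_ph _ _ _
      rw [h5, mul_one]
      have h6 := hB x hx (w1 x : ℕ) (hWb _ h2).1 (hWb _ h2).2
      calc ‖lam (w1 x)‖ * ‖F x (w1 x : ℕ)‖ ≤ 1 * B :=
            mul_le_mul (hlam _) h6 (norm_nonneg _) zero_le_one
        _ = B := one_mul _
    · rw [Finset.erase_eq_of_notMem h2]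
      linarith
  have hCS : (∑ x ∈ X, ‖∑ w ∈ W', lam w * F x w * ph v c (a * nn x * w)‖) ^ 2 ≤
      X.card * (6 * B ^ 2 * R0 * K) :=
    (sq_sum_le_card_mul_sum_sq).trans (mul_le_mul_of_nonneg_left hsum (Nat.cast_nonneg _))
  have hT0 : 0 ≤ ∑ x ∈ X, ‖∑ w ∈ W.filter (fun w => Nat.Coprime w v ∧ w ≠ w1 x),
        lam w * F x w * ph v c (a * nn x * w)‖ := Finset.sum_nonneg fun _ _ => norm_nonneg _
  calc (∑ x ∈ X, ‖∑ w ∈ W.filter (fun w => Nat.Coprime w v ∧ w ≠ w1 x),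
        lam w * F x w * ph v c (a * nn x * w)‖) ^ 2
      ≤ (∑ x ∈ X, ‖∑ w ∈ W', lam w * F x w * ph v c (a * nn x * w)‖ + X.card * B) ^ 2 := by
        refine pow_le_pow_left₀ hT0 ?_ 2
        refine (Finset.sum_le_sum hone).trans ?_
        rw [Finset.sum_add_distrib, Finset.sum_const, nsmul_eq_mul]
    _ ≤ 2 * (∑ x ∈ X, ‖∑ w ∈ W', lam w * F x w * ph v c (a * nn x * w)‖) ^ 2 +
        2 * (X.card * B) ^ 2 := by
        nlinarith [sq_nonneg (∑ x ∈ X, ‖∑ w ∈ W', lam w * F x w * ph v c (a * nn x * w)‖ - X.card * B)]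
    _ ≤ 2 * X.card * (6 * B ^ 2 * R0 * K) + 2 * (X.card : ℝ) ^ 2 * B ^ 2 := by
        nlinarith [hCS]

end Pool.Agent.Helper26.AP
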