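import Pool.Agent.Helper26.AP.FSb

/-!
# Project A' (MP_8958e8): the fixed shifts of `b_2` with `b_2` (block FS22)
-/

open MeasureTheory Set Filter Topology

set_option autoImplicit false

namespace Pool.Agent.AP

/-- powers of the logarithm are small -/
theorem plog26 (C : ℝ) (n : ℕ) {x y : ℝ} (h : x < y) : ∀ᶠ T : ℝ in atTop, C * (1 + Real.log T) ^ n * T ^ x ≤ T ^ y := by
  set a : ℝ := (y - x) / (2 * (n + 1)) with ha
  have ha0 : 0 < a := by rw [ha]; apply div_pos <;> [linarith; positivity]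
  have hna : n * a ≤ (y - x) / 2 := by
    rw [ha, ← mul_div_assoc, div_le_div_iff₀ (by positivity) (by norm_num)]
    nlinarith
  have h1 : ∀ᶠ T : ℝ in atTop, |C| * (1 + 1 / a) ^ n ≤ T ^ ((y - x) / 2) :=
    (tendsto_rpow_atTop (by linarith)).eventually_ge_atTop _
  filter_upwards [h1, eventually_ge_atTop 1] with T h2 hT
  have hT0 : (0 : ℝ) < T := by linarith
  have hlog : 0 ≤ Real.log T := Real.log_nonneg hT
  have h3 : 1 + Real.log T ≤ (1 + 1 / a) * T ^ a := by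
    have h4 := Real.log_le_rpow_div hT0.le ha0
    have h5 : (1 : ℝ) ≤ T ^ a := Real.one_le_rpow hT ha0.le
    have h6 : T ^ a / a = 1 / a * T ^ a := by ring
    nlinarith
  have h4 : (1 + Real.log T) ^ n ≤ (1 + 1 / a) ^ n * T ^ (n * a) := by
    calc (1 + Real.log T) ^ n ≤ ((1 + 1 / a) * T ^ a) ^ n := pow_le_pow_left₀ (by linarith) h3 n
      _ = (1 + 1 / a) ^ n * T ^ (n * a) := by
        rw [mul_pow, ← Real.rpow_natCast (T ^ a) n, ← Real.rpow_mul hT0.le, mul_comm a]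
  have h5 : T ^ ((n : ℝ) * a) ≤ T ^ ((y - x) / 2) := Real.rpow_le_rpow_of_exponent_le hT hna
  have hTx : 0 < T ^ x := Real.rpow_pos_of_pos hT0 x
  have ha1 : 0 ≤ (1 + 1 / a) ^ n := by positivity
  calc C * (1 + Real.log T) ^ n * T ^ x ≤ |C| * (1 + Real.log T) ^ n * T ^ x := by
        refine mul_le_mul_of_nonneg_right (mul_le_mul_of_nonneg_right (le_abs_self C) ?_) hTx.le
        positivity
    _ ≤ |C| * ((1 + 1 / a) ^ n * T ^ ((y - x) / 2)) * T ^ x := by
        refine mul_le_mul_of_nonneg_right (mul_le_mul_of_nonneg_left (h4.trans ?_) (abs_nonneg C)) hTx.le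
        exact mul_le_mul_of_nonneg_left h5 ha1
    _ = (|C| * (1 + 1 / a) ^ n) * (T ^ ((y - x) / 2) * T ^ x) := by ring
    _ ≤ T ^ ((y - x) / 2) * (T ^ ((y - x) / 2) * T ^ x) :=
        mul_le_mul_of_nonneg_right h2 (by positivity)
    _ = T ^ y := by
        rw [← Real.rpow_add hT0, ← Real.rpow_add hT0]
        congr 1
        ring

/-- the sets of primes -/
def Gd26 (T : ℝ) (I : Finset ℕ) : Prop := ∀ p ∈ I, p.Prime ∧ T ^ (1 / 100 : ℝ) < p ∧ (p : ℝ) ≤ T ^ (1 / 5 : ℝ)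

theorem gd_IP26 {T e v : ℝ} (hT : 1 ≤ T) (he : 1 / 100 ≤ e) (hev : e + v ≤ 1 / 5) : Gd26 T (IP e v T) := by
  intro p hp
  unfold IP at hp
  rw [Finset.mem_filter, Finset.mem_Icc] at hp
  obtain ⟨⟨_, h2⟩, h3, h4⟩ := hp
  have h5 : (p : ℝ) ≤ T ^ (e + v) := (Nat.le_floor_iff (by positivity)).1 h2
  exact ⟨h3, (Real.rpow_le_rpow_of_exponent_le hT he).trans_lt h4, h5.trans (Real.rpow_le_rpow_of_exponent_le hT hev)⟩

theorem gd_IF26 {T : ℝ} (hT : 1 ≤ T) : ∀ I ∈ IF T, Gd26 T I := by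
  intro I hI
  unfold IF IL esF at hI
  simp only [List.map_cons, List.map_nil, List.mem_cons, List.not_mem_nil, or_false] at hI
  rcases hI with rfl | rfl | rfl | rfl | rfl | rfl | rfl <;> exact gd_IP26 hT (by norm_num) (by norm_num)

theorem disj_IP26 {T e e' v : ℝ} (hT : 1 ≤ T) (h : e + v < e') : Disjoint (IP e v T) (IP e' v T) := by
  rw [Finset.disjoint_left]
  intro p hp hp'
  unfold IP at hp hp'
  rw [Finset.mem_filter, Finset.mem_Icc] at hp hp'
  have h1 : (p : ℝ) ≤ T ^ (e + v) := (Nat.le_floor_iff (by positivity)).1 hp.1.2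
  have h2 := Real.rpow_le_rpow_of_exponent_le hT h.le
  linarith [hp'.2.2]

theorem pw_IF26 {T : ℝ} (hT : 1 ≤ T) : (IF T).Pairwise (fun I J => Disjoint I J) := by
  unfold IF IL
  rw [List.pairwise_map]
  have h : (esF (1 / 1000000)).Pairwise (fun x y => x + 1 / 100000000 < y) := by
    unfold esF
    simp only [List.pairwise_cons, List.mem_cons, List.not_mem_nil, or_false, forall_eq_or_imp, forall_eq,
      IsEmpty.forall_iff, implies_true, List.Pairwise.nil, and_true]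
    norm_num
  exact h.imp fun {x y} hxy => disj_IP26 hT hxy

theorem len_IF26 (T : ℝ) : (IF T).length = 7 := by
  unfold IF IL esF
  simp

/-- the factors at zero -/
theorem prod0_26 {T v : ℝ} (hT : 1 ≤ T) (hv : 0 ≤ v) : ∀ es : List ℝ, (∀ e ∈ es, 0 ≤ e ∧ e + v ≤ 1) →
    |((es.map fun e => IP e v T).map fun I => cI I - omI I 0).prod| ≤
      (6 * (1 + Real.log T)) ^ es.length * T ^ (es.map (fun e => e + v)).sum
  | [], _ => by simp
  | e :: es, h => by
    obtain ⟨h1, h2⟩ := h e (List.mem_cons_self ..)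
    have ih := prod0_26 hT hv es fun x hx => h x (List.mem_cons_of_mem _ hx)
    have hT0 : (0 : ℝ) < T := by linarith
    have hlog : 0 ≤ Real.log T := Real.log_nonneg hT
    have hmem : ∀ p ∈ IP e v T, p.Prime ∧ (p : ℝ) ≤ T ^ (e + v) := by
      intro p hp
      unfold IP at hp
      rw [Finset.mem_filter, Finset.mem_Icc] at hp
      exact ⟨hp.2.1, (Nat.le_floor_iff (by positivity)).1 hp.1.2⟩
    have hle : ∀ p ∈ IP e v T, p.Prime ∧ (p : ℝ) ≤ T := fun p hp => ⟨(hmem p hp).1, (hmem p hp).2.trans (by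
      calc T ^ (e + v) ≤ T ^ (1 : ℝ) := Real.rpow_le_rpow_of_exponent_le hT h2
        _ = T := Real.rpow_one T)⟩
    have hc := cI_le26 hT hle
    have hX1 : (1 : ℝ) ≤ T ^ (e + v) := Real.one_le_rpow hT (by linarith)
    have ho : 0 ≤ omI (IP e v T) 0 ∧ omI (IP e v T) 0 ≤ 2 * T ^ (e + v) := by
      have h3 : ∀ p ∈ IP e v T, (0 : ℝ) ≤ (if (p : ℤ) ∣ 0 then (p : ℝ) / ((p : ℝ) - 1) else 0) ∧
          (if (p : ℤ) ∣ 0 then (p : ℝ) / ((p : ℝ) - 1) else 0) ≤ 2 := by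
        intro p hp
        have h4 : (2 : ℝ) ≤ p := by exact_mod_cast (hmem p hp).1.two_le
        rw [if_pos (dvd_zero _)]
        refine ⟨by apply div_nonneg <;> linarith, ?_⟩
        rw [div_le_iff₀ (by linarith)]
        linarith
      refine ⟨Finset.sum_nonneg fun p hp => (h3 p hp).1, ?_⟩
      have h5 : (IP e v T).card ≤ ⌊T ^ (e + v)⌋₊ := by
        unfold IP
        refine (Finset.card_filter_le _ _).trans ?_
        rw [Nat.card_Icc, Nat.add_sub_cancel]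
      calc omI (IP e v T) 0 ≤ ∑ p ∈ IP e v T, (2 : ℝ) := Finset.sum_le_sum fun p hp => (h3 p hp).2
        _ = 2 * ((IP e v T).card : ℝ) := by rw [Finset.sum_const, nsmul_eq_mul]; ring
        _ ≤ 2 * T ^ (e + v) := by
            have h6 : ((IP e v T).card : ℝ) ≤ ⌊T ^ (e + v)⌋₊ := by exact_mod_cast h5
            have h7 : ((⌊T ^ (e + v)⌋₊ : ℕ) : ℝ) ≤ T ^ (e + v) := Nat.floor_le (by positivity)
            linarith
    have hf : |cI (IP e v T) - omI (IP e v T) 0| ≤ 6 * (1 + Real.log T) * T ^ (e + v) := by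
      have h8 : 2 * (1 + Real.log T) ≤ 2 * (1 + Real.log T) * T ^ (e + v) := by
        nlinarith
      have h9 : 2 * T ^ (e + v) ≤ 2 * (1 + Real.log T) * T ^ (e + v) := by
        nlinarith
      have h10 : 0 ≤ (1 + Real.log T) * T ^ (e + v) := by positivity
      rw [abs_le]
      constructor <;> nlinarith [hc.1, hc.2, ho.1, ho.2]
    rw [List.map_cons, List.map_cons, List.prod_cons, abs_mul, List.map_cons, List.sum_cons, Real.rpow_add hT0,
      List.length_cons, pow_succ]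
    calc |cI (IP e v T) - omI (IP e v T) 0| * |((es.map fun e => IP e v T).map fun I => cI I - omI I 0).prod|
        ≤ (6 * (1 + Real.log T) * T ^ (e + v)) * ((6 * (1 + Real.log T)) ^ es.length * T ^ (es.map (fun e => e + v)).sum) :=
          mul_le_mul hf ih (abs_nonneg _) (by positivity)
      _ = _ := by ring

/-- `Λ_B(0)` -/
theorem lamR0_26 (B : ℕ) : |lamR B 0| ≤ (B : ℝ) ^ 3 := by
  unfold lamR
  refine (Finset.abs_sum_le_sum_abs _ _).trans ?_
  have h : ∀ r ∈ Finset.Icc 1 B, |Pool.Agent.Helper69.FF.mf r * cr r 0| ≤ (B : ℝ) ^ 2 := by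
    intro r hr
    rw [Finset.mem_Icc] at hr
    have hr0 : (0 : ℝ) < r := by exact_mod_cast hr.1
    have hrB : (r : ℝ) ≤ B := by exact_mod_cast hr.2
    have hμ : ∀ n : ℕ, |(ArithmeticFunction.moebius n : ℝ)| ≤ 1 := by
      intro n
      exact_mod_cast ArithmeticFunction.abs_moebius_le_one
    have h1 : |Pool.Agent.Helper69.FF.mf r| ≤ 1 := by
      unfold Pool.Agent.Helper69.FF.mf
      have h2 : (1 : ℝ) ≤ (Nat.totient r : ℝ) := by exact_mod_cast Nat.totient_pos.2 hr.1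
      rw [abs_div, div_le_one (by positivity), Nat.abs_cast]
      exact (hμ r).trans h2
    have h2 : |cr r 0| ≤ (r : ℝ) * r := by
      unfold cr
      refine (Finset.abs_sum_le_sum_abs _ _).trans ?_
      calc ∑ d ∈ r.divisors, |if (d : ℤ) ∣ 0 then (d : ℝ) * (ArithmeticFunction.moebius (r / d) : ℝ) else 0|
          ≤ ∑ d ∈ r.divisors, (r : ℝ) := by
            refine Finset.sum_le_sum fun d hd => ?_
            rw [if_pos (dvd_zero _), abs_mul, Nat.abs_cast]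
            have h3 : (d : ℝ) ≤ r := by exact_mod_cast Nat.divisor_le hd
            have h4 := hμ (r / d)
            nlinarith [abs_nonneg ((ArithmeticFunction.moebius (r / d) : ℤ) : ℝ), (Nat.cast_nonneg d : (0 : ℝ) ≤ d)]
        _ = (r.divisors.card : ℝ) * r := by rw [Finset.sum_const, nsmul_eq_mul]
        _ ≤ (r : ℝ) * r := by
            refine mul_le_mul_of_nonneg_right ?_ hr0.le
            exact_mod_cast Nat.card_divisors_le_self r
    rw [abs_mul]
    calc |Pool.Agent.Helper69.FF.mf r| * |cr r 0| ≤ 1 * ((r : ℝ) * r) := mul_le_mul h1 h2 (abs_nonneg _) zero_le_one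
      _ ≤ (B : ℝ) ^ 2 := by nlinarith
  calc ∑ r ∈ Finset.Icc 1 B, |Pool.Agent.Helper69.FF.mf r * cr r 0| ≤ ∑ r ∈ Finset.Icc 1 B, (B : ℝ) ^ 2 := Finset.sum_le_sum h
    _ = (B : ℝ) ^ 3 := by
      rw [Finset.sum_const, Nat.card_Icc, Nat.add_sub_cancel, nsmul_eq_mul]
      ring

/-- `b_2(0)` -/
theorem bF0_26 : ∀ᶠ T : ℝ in atTop, |bF T 0| ≤ T ^ (51 / 100 : ℝ) := by
  filter_upwards [plog26 (6 ^ 7) 7 (show (5001 / 10000 + 3 / 4000000 : ℝ) < 51 / 100 by norm_num), eventually_ge_atTop 1] with T h1 hT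
  have hT0 : (0 : ℝ) < T := by linarith
  have hlog : 0 ≤ Real.log T := Real.log_nonneg hT
  have h2 : |bF T 0| = |lamR ⌊T ^ (1 / 4000000 : ℝ)⌋₊ 0| *
      |(((esF (1 / 1000000)).map fun e => IP e (1 / 100000000) T).map fun I => cI I - omI I 0).prod| := by
    rw [← abs_mul]
    rfl
  have h3 : |lamR ⌊T ^ (1 / 4000000 : ℝ)⌋₊ 0| ≤ T ^ (3 / 4000000 : ℝ) := by
    refine (lamR0_26 _).trans ?_
    have h4 : ((⌊T ^ (1 / 4000000 : ℝ)⌋₊ : ℕ) : ℝ) ≤ T ^ (1 / 4000000 : ℝ) := Nat.floor_le (by positivity)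
    calc ((⌊T ^ (1 / 4000000 : ℝ)⌋₊ : ℕ) : ℝ) ^ 3 ≤ (T ^ (1 / 4000000 : ℝ)) ^ 3 := pow_le_pow_left₀ (Nat.cast_nonneg _) h4 3
      _ = T ^ (3 / 4000000 : ℝ) := by
        rw [← Real.rpow_natCast, ← Real.rpow_mul hT0.le]
        congr 1
        norm_num
  have h5 := prod0_26 (v := 1 / 100000000) hT (by norm_num) (esF (1 / 1000000)) (by
    intro e he
    unfold esF at he
    simp only [List.mem_cons, List.not_mem_nil, or_false] at he
    rcases he with rfl | rfl | rfl | rfl | rfl | rfl | rfl <;> constructor <;> norm_num)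
  have h6 : (esF (1 / 1000000)).length = 7 := by simp [esF]
  have h7 : T ^ ((esF (1 / 1000000)).map (fun e => e + 1 / 100000000)).sum ≤ T ^ (5001 / 10000 : ℝ) := by
    refine Real.rpow_le_rpow_of_exponent_le hT ?_
    unfold esF
    simp only [List.map_cons, List.map_nil, List.sum_cons, List.sum_nil]
    norm_num
  rw [h2]
  calc |lamR ⌊T ^ (1 / 4000000 : ℝ)⌋₊ 0| *
      |(((esF (1 / 1000000)).map fun e => IP e (1 / 100000000) T).map fun I => cI I - omI I 0).prod|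
      ≤ T ^ (3 / 4000000 : ℝ) * ((6 * (1 + Real.log T)) ^ 7 * T ^ (5001 / 10000 : ℝ)) := by
        refine mul_le_mul h3 (h5.trans ?_) (abs_nonneg _) (by positivity)
        rw [h6]
        exact mul_le_mul_of_nonneg_left h7 (by positivity)
    _ = 6 ^ 7 * (1 + Real.log T) ^ 7 * T ^ (5001 / 10000 + 3 / 4000000 : ℝ) := by
        rw [Real.rpow_add hT0, mul_pow]
        ring
    _ ≤ T ^ (51 / 100 : ℝ) := h1

/-- pointwise bound for all lists of at most seven sets -/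
theorem pw26 (hlb : Stmt_lamR_bd) {η : ℝ} (hη : 0 < η) : ∀ᶠ T : ℝ in atTop, ∀ Is : List (Finset ℕ), Is.length ≤ 7 → (∀ I ∈ Is, Gd26 T I) →
    ∀ m : ℤ, m ≠ 0 → |(m : ℝ)| ≤ T ^ 2 → |bb ⌊T ^ (1 / 4000000 : ℝ)⌋₊ Is m| ≤ T ^ (15 * η) := by
  obtain ⟨C, hC, hdiv⟩ := Pool.Agent.Helper69.FF.div_bound (show 0 < η / 4 by linarith)
  filter_upwards [hlb hη, plog26 (2 * C) 0 (show η / 2 < η by linarith), plog26 4 1 (show (0 : ℝ) < 2 * η by linarith),
    plog26 (2 : ℝ) 0 (show η < 2 * η by linarith), eventually_ge_atTop 1] with T h1 h2 h3 h4 hT Is hlen hgood m hm hmT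
  have hT0 : (0 : ℝ) < T := by linarith
  have hlog : 0 ≤ Real.log T := Real.log_nonneg hT
  have hB : ((⌊T ^ (1 / 4000000 : ℝ)⌋₊ : ℕ) : ℝ) ≤ T ^ 2 := by
    refine (Nat.floor_le (by positivity)).trans ?_
    rw [← Real.rpow_natCast T 2]
    exact Real.rpow_le_rpow_of_exponent_le hT (by norm_num)
  have h5 := h1 m hm hmT _ hB
  have hmn : ((m.natAbs : ℕ) : ℝ) = |(m : ℝ)| := by
    rw [← Int.cast_abs, Int.abs_eq_natAbs]
    simp
  have h6 : (m.natAbs.divisors.card : ℝ) ≤ T ^ η / 2 := by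
    refine (hdiv m.natAbs (by simpa using hm)).trans ?_
    rw [hmn]
    have h7 : |(m : ℝ)| ^ (η / 4) ≤ T ^ (η / 2) := by
      calc |(m : ℝ)| ^ (η / 4) ≤ (T ^ 2) ^ (η / 4) := Real.rpow_le_rpow (abs_nonneg _) hmT (by linarith)
        _ = T ^ (η / 2) := by
          rw [← Real.rpow_natCast T 2, ← Real.rpow_mul hT0.le]
          congr 1
          push_cast
          ring
    have h8 := mul_le_mul_of_nonneg_left h7 hC.le
    rw [pow_zero, mul_one] at h2
    linarith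
  have h7 := bb_le26 hT ⌊T ^ (1 / 4000000 : ℝ)⌋₊ Is (fun I hI p hp => ⟨(hgood I hI p hp).1, (hgood I hI p hp).2.2.trans (by
      calc T ^ (1 / 5 : ℝ) ≤ T ^ (1 : ℝ) := Real.rpow_le_rpow_of_exponent_le hT (by norm_num)
        _ = T := Real.rpow_one T)⟩) hm h6
  have h8 : 2 * (1 + Real.log T) + 2 * (T ^ η / 2) ≤ T ^ (2 * η) := by
    rw [pow_one, Real.rpow_zero, mul_one] at h3
    rw [pow_zero, mul_one] at h4
    linarith
  have h9 : (1 : ℝ) ≤ T ^ (2 * η) := Real.one_le_rpow hT (by linarith)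
  calc |bb ⌊T ^ (1 / 4000000 : ℝ)⌋₊ Is m| ≤ T ^ η * (T ^ (2 * η)) ^ 7 := by
        refine h7.trans (mul_le_mul h5 ?_ (by positivity) (by positivity))
        refine (pow_le_pow_left₀ (by positivity) h8 _).trans (pow_le_pow_right₀ h9 hlen)
    _ = T ^ (15 * η) := by
        rw [← Real.rpow_natCast (T ^ (2 * η)) 7, ← Real.rpow_mul hT0.le, ← Real.rpow_add hT0]
        congr 1
        push_cast
        ring

/-- (block FS22) -/
theorem FS_b2b2_of (hlam : Stmt_lamR_eq) (hxi : Stmt_xi_bd) (hlb : Stmt_lamR_bd) (htel : Stmt_telescope) (hbox : Stmt_box)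
    (hBP : Stmt_BP) (hBT : Stmt_BT) : Stmt_FS_b2b2 := by
  obtain ⟨Cx, hCx, hxi⟩ := hxi
  obtain ⟨Cb, hCb, hbox⟩ := hbox
  obtain ⟨Cd, hCd, hdiv⟩ := Pool.Agent.Helper69.FF.div_bound (show (0 : ℝ) < 1 / 4000000000000 by norm_num)
  refine ⟨1 / 10000000000, 1 / 1000000000, by norm_num, by norm_num, ?_⟩
  unfold FS
  filter_upwards [hBP, hBT, pw26 hlb (show (0 : ℝ) < 1 / 1000000000000 by norm_num), bF0_26,
    plog26 Cd 0 (show (1 / 2000000000000 : ℝ) < 1 / 1000000000000 by norm_num),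
    plog26 2 0 (show (0 : ℝ) < 1 / 100000000 by norm_num),
    plog26 (512 * Cx) 9 (show (994 / 1000 : ℝ) < 1 - 1 / 1000000000 by norm_num),
    plog26 (2 * 30464 * Cb) 9 (show (1 - 9 / 1000000000 : ℝ) < 1 - 1 / 1000000000 by norm_num),
    plog26 2 0 (show (1 / 10000000000 : ℝ) < 9 / 10 by norm_num),
    eventually_ge_atTop 1] with T hBP hBT hpw hF0 hd1 hJ1 hn1 hn2 hk1 hT k hk0 hkT N₁ N₂ hN₁ hN₂
  have hT0 : (0 : ℝ) < T := by linarith
  have hlog : 0 ≤ Real.log T := Real.log_nonneg hT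
  have mono : ∀ {x y : ℝ}, x ≤ y → T ^ x ≤ T ^ y := fun h => Real.rpow_le_rpow_of_exponent_le hT h
  have one : ∀ {x : ℝ}, 0 ≤ x → 1 ≤ T ^ x := fun h => Real.one_le_rpow hT h
  rw [pow_zero, mul_one] at hd1 hJ1 hk1
  rw [Real.rpow_zero, mul_one] at hJ1
  rcases lt_or_ge N₂ N₁ with hlt | hN
  · rw [Finset.Ioc_eq_empty (by omega), Finset.sum_empty, abs_zero]
    positivity
  set B := ⌊T ^ (1 / 4000000 : ℝ)⌋₊ with hB
  set J := ⌊T ^ (1 / 100000000 : ℝ)⌋₊ with hJ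
  set G := offz (bF T) with hG
  set Lc := 1 + Real.log T with hLc
  have hLc1 : 1 ≤ Lc := by rw [hLc]; linarith
  have hT2 : T ^ (2 : ℕ) = T ^ (2 : ℝ) := by
    rw [← Real.rpow_natCast T 2]
    norm_num
  have hBT' : (B : ℝ) ≤ T ^ (1 / 4000000 : ℝ) := Nat.floor_le (by positivity)
  have hJT : (J : ℝ) ≤ T ^ (1 / 100000000 : ℝ) := Nat.floor_le (by positivity)
  have hJT' : T ^ (1 / 100000000 : ℝ) < J + 1 := Nat.lt_floor_add_one _
  have hJ2 : 2 ≤ J := Nat.le_floor (by push_cast; exact hJ1)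
  have hJhalf : T ^ (1 / 100000000 : ℝ) / 2 ≤ J := by linarith
  have hkT9 : 2 * |(k : ℝ)| ≤ T ^ (9 / 10 : ℝ) := by linarith
  have hN₂T2 : (N₂ : ℝ) ≤ T ^ (2 : ℕ) / 2 := by
    have h1 : (N₂ : ℝ) ≤ T ^ (1 + 1 / 10000000000 : ℝ) := hN₂
    have h2 : 2 * T ^ (1 + 1 / 10000000000 : ℝ) ≤ T ^ (9 / 10 : ℝ) * T ^ (1 + 1 / 10000000000 : ℝ) := by
      refine mul_le_mul_of_nonneg_right ?_ (by positivity)
      have := one (show (0 : ℝ) ≤ 1 / 10000000000 by norm_num)
      linarith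
    rw [← Real.rpow_add hT0] at h2
    have h3 : T ^ (9 / 10 + (1 + 1 / 10000000000) : ℝ) ≤ T ^ (2 : ℝ) := mono (by norm_num)
    rw [hT2]
    linarith
  have hN₂0 : (0 : ℝ) < N₂ := by
    have h1 : (0 : ℝ) < T ^ (9 / 10 : ℝ) := by positivity
    have h2 : (N₁ : ℝ) ≤ N₂ := by exact_mod_cast hN
    linarith
  have hne : ∀ n : ℕ, N₁ < n → (n : ℤ) + k ≠ 0 := by
    intro n hn h
    have h1 : (k : ℝ) = -(n : ℝ) := by
      have : k = -(n : ℤ) := by linarith
      rw [this]; push_cast; ring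
    rw [h1, abs_neg, Nat.abs_cast] at hkT9
    have h2 : (N₁ : ℝ) < n := by exact_mod_cast hn
    have h3 : (0 : ℝ) ≤ N₁ := Nat.cast_nonneg _
    linarith
  have hkT2 : |(k : ℝ)| ≤ T ^ (2 : ℕ) / 2 := by
    have h1 : T ^ (9 / 10 : ℝ) ≤ T ^ (2 : ℝ) := mono (by norm_num)
    rw [hT2]
    linarith
  -- the sum
  have e0 : ∑ n ∈ Finset.Ioc N₁ N₂, bF T (n : ℤ) * bF T (n + k) = ∑ n ∈ Finset.Ioc N₁ N₂, bb B (IF T) (n : ℤ) * G (n + k) := by
    refine Finset.sum_congr rfl fun n hn => ?_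
    rw [Finset.mem_Ioc] at hn
    have h1 : G (n + k) = bF T (n + k) := by
      rw [hG]
      unfold offz
      rw [if_neg (hne n hn.1)]
    rw [h1]
    rfl
  rw [e0]
  set A : ℝ := T ^ (15 * (1 / 1000000000000) : ℝ) with hA
  set E : ℝ := 2 * T ^ (1 - 1 / 10000000 : ℝ) with hE
  set Dd : ℝ := T ^ (1 / 1000000000000 : ℝ) with hDd
  set R : ℝ := Cb * (J * Real.log N₂) ^ 2 * E + Cb * A * Dd * (N₂ / J + 1) * (1 + Real.log N₂) with hR
  set E₀ : ℝ := T ^ (5002 / 10000 : ℝ) + N₂ * T ^ (-(8 / 1000) : ℝ) with hE₀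
  have hN₂1 : (1 : ℝ) ≤ N₂ := by
    have : 0 < N₂ := by exact_mod_cast hN₂0
    exact_mod_cast this
  have hlogN0 : 0 ≤ Real.log N₂ := Real.log_nonneg hN₂1
  have hlogN : Real.log N₂ ≤ 2 * Lc := by
    have h1 : Real.log N₂ ≤ Real.log (T ^ (2 : ℕ)) := Real.log_le_log hN₂0 (by
      have : 0 < T ^ (2 : ℕ) := by positivity
      linarith)
    rw [Real.log_pow] at h1
    push_cast at h1
    linarith
  have hJ0 : (0 : ℝ) < J := by
    have : 0 < J := by omega
    exact_mod_cast this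
  have hA0 : 0 < A := by positivity
  have hR0 : 0 ≤ R := by positivity
  have hJN : J ≤ N₂ := by
    have h1 : (J : ℝ) ≤ N₂ := by
      have h2 : T ^ (1 / 100000000 : ℝ) ≤ T ^ (9 / 10 : ℝ) := mono (by norm_num)
      have h3 : (N₁ : ℝ) ≤ N₂ := by exact_mod_cast hN
      linarith
    exact_mod_cast h1
  have hpI : ∀ I, Gd26 T I → ∀ p ∈ I, p.Prime ∧ B < p ∧ p ≤ N₂ ∧ T ^ (1 / 2000 : ℝ) ≤ p ∧ (p : ℝ) ≤ T ^ (405 / 1000 : ℝ) ∧ (p : ℝ) ≤ T := by
    intro I hI p hp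
    obtain ⟨h1, h2, h3⟩ := hI p hp
    refine ⟨h1, ?_, ?_, ?_, ?_, ?_⟩
    · have h4 : T ^ (1 / 4000000 : ℝ) ≤ T ^ (1 / 100 : ℝ) := mono (by norm_num)
      have h5 : (B : ℝ) < p := by linarith
      exact_mod_cast h5
    · have h4 : T ^ (1 / 5 : ℝ) ≤ T ^ (9 / 10 : ℝ) := mono (by norm_num)
      have h5 : (N₁ : ℝ) ≤ N₂ := by exact_mod_cast hN
      have h6 : (p : ℝ) ≤ N₂ := by linarith
      exact_mod_cast h6
    · exact (mono (by norm_num)).trans h2.le
    · exact h3.trans (mono (by norm_num))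
    · refine h3.trans ?_
      calc T ^ (1 / 5 : ℝ) ≤ T ^ (1 : ℝ) := mono (by norm_num)
        _ = T := Real.rpow_one T
  have main := ind26 htel B N₁ N₂ k G (2 * Lc) A R (B * (Cx * Lc ^ 2 * E₀)) 6 (by linarith) hA0 hR0 (by positivity) (Gd26 T)
    (fun I hI => ⟨fun p hp => ⟨(hpI I hI p hp).1, (hpI I hI p hp).2.1, (hpI I hI p hp).2.2.1⟩,
      cI_le26 hT fun p hp => ⟨(hpI I hI p hp).1, (hpI I hI p hp).2.2.2.2.2⟩⟩)
    (fun Is hlen hgood m hm1 hm2 => by
      have h1 : (m : ℝ) ≤ N₂ := by exact_mod_cast hm2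
      refine hpw Is (by omega) hgood (m : ℤ) (by omega) ?_
      push_cast
      rw [Nat.abs_cast]
      have : 0 < T ^ (2 : ℕ) := by positivity
      linarith)
    ?_ ?_ (IF T) (by rw [len_IF26]) (gd_IF26 hT) (pw_IF26 hT)
  · rw [len_IF26] at main
    push_cast at main
    refine main.trans ?_
    -- numerics
    have hE₀b : E₀ ≤ 2 * T ^ (993 / 1000 : ℝ) := by
      have h1 : T ^ (5002 / 10000 : ℝ) ≤ T ^ (993 / 1000 : ℝ) := mono (by norm_num)
      have h2 : N₂ * T ^ (-(8 / 1000) : ℝ) ≤ T ^ (993 / 1000 : ℝ) := by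
        calc N₂ * T ^ (-(8 / 1000) : ℝ) ≤ T ^ (1 + 1 / 10000000000 : ℝ) * T ^ (-(8 / 1000) : ℝ) :=
              mul_le_mul_of_nonneg_right hN₂ (by positivity)
          _ = T ^ (1 + 1 / 10000000000 + -(8 / 1000) : ℝ) := (Real.rpow_add hT0 _ _).symm
          _ ≤ T ^ (993 / 1000 : ℝ) := mono (by norm_num)
      linarith
    have hA₀b : (2 * Lc) ^ 7 * (B * (Cx * Lc ^ 2 * E₀)) ≤ T ^ (1 - 1 / 1000000000 : ℝ) / 2 := by
      have h1 : B * (Cx * Lc ^ 2 * E₀) ≤ T ^ (1 / 4000000 : ℝ) * (Cx * Lc ^ 2 * (2 * T ^ (993 / 1000 : ℝ))) := by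
        refine mul_le_mul hBT' (mul_le_mul_of_nonneg_left hE₀b (by positivity)) (by positivity) (by positivity)
      have h2 : T ^ (1 / 4000000 : ℝ) * T ^ (993 / 1000 : ℝ) ≤ T ^ (994 / 1000 : ℝ) := by
        rw [← Real.rpow_add hT0]
        exact mono (by norm_num)
      calc (2 * Lc) ^ 7 * (B * (Cx * Lc ^ 2 * E₀))
          ≤ (2 * Lc) ^ 7 * (T ^ (1 / 4000000 : ℝ) * (Cx * Lc ^ 2 * (2 * T ^ (993 / 1000 : ℝ)))) :=
            mul_le_mul_of_nonneg_left h1 (by positivity)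
        _ = 256 * Cx * Lc ^ 9 * (T ^ (1 / 4000000 : ℝ) * T ^ (993 / 1000 : ℝ)) := by ring
        _ ≤ 256 * Cx * Lc ^ 9 * T ^ (994 / 1000 : ℝ) := mul_le_mul_of_nonneg_left h2 (by positivity)
        _ = (512 * Cx * Lc ^ 9 * T ^ (994 / 1000 : ℝ)) / 2 := by ring
        _ ≤ _ := by linarith
    have hRb : (2 * Lc) ^ 7 * (7 * (2 * A * R)) ≤ T ^ (1 - 1 / 1000000000 : ℝ) / 2 := by
      have h1 : (J * Real.log N₂) ^ 2 ≤ 4 * Lc ^ 2 * T ^ (2 / 100000000 : ℝ) := by
        calc (J * Real.log N₂) ^ 2 ≤ (T ^ (1 / 100000000 : ℝ) * (2 * Lc)) ^ 2 :=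
              pow_le_pow_left₀ (by positivity) (mul_le_mul hJT hlogN hlogN0 (by positivity)) 2
          _ = 4 * Lc ^ 2 * (T ^ (1 / 100000000 : ℝ) * T ^ (1 / 100000000 : ℝ)) := by ring
          _ = 4 * Lc ^ 2 * T ^ (2 / 100000000 : ℝ) := by
            rw [← Real.rpow_add hT0]
            norm_num
      have h2 : N₂ / J + 1 ≤ 3 * T ^ (1 + 1 / 10000000000 - 1 / 100000000 : ℝ) := by
        have h3 : (N₂ : ℝ) / J ≤ 2 * T ^ (1 + 1 / 10000000000 - 1 / 100000000 : ℝ) := by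
          rw [div_le_iff₀ hJ0]
          calc (N₂ : ℝ) ≤ T ^ (1 + 1 / 10000000000 : ℝ) := hN₂
            _ = 2 * T ^ (1 + 1 / 10000000000 - 1 / 100000000 : ℝ) * (T ^ (1 / 100000000 : ℝ) / 2) := by
              rw [show 2 * T ^ (1 + 1 / 10000000000 - 1 / 100000000 : ℝ) * (T ^ (1 / 100000000 : ℝ) / 2) =
                T ^ (1 + 1 / 10000000000 - 1 / 100000000 : ℝ) * T ^ (1 / 100000000 : ℝ) by ring, ← Real.rpow_add hT0]
              congr 1
              ring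
            _ ≤ _ := mul_le_mul_of_nonneg_left hJhalf (by positivity)
        have h4 := one (show (0 : ℝ) ≤ 1 + 1 / 10000000000 - 1 / 100000000 by norm_num)
        linarith
      have h3 : R ≤ Cb * (4 * Lc ^ 2 * T ^ (2 / 100000000 : ℝ)) * E +
          Cb * A * Dd * (3 * T ^ (1 + 1 / 10000000000 - 1 / 100000000 : ℝ)) * (3 * Lc) := by
        rw [hR]
        refine add_le_add ?_ ?_
        · exact mul_le_mul_of_nonneg_right (mul_le_mul_of_nonneg_left h1 hCb.le) (by positivity)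
        · refine mul_le_mul (mul_le_mul_of_nonneg_left h2 (by positivity)) (by linarith) (by positivity) (by positivity)
      have h4 : A * (T ^ (2 / 100000000 : ℝ) * T ^ (1 - 1 / 10000000 : ℝ)) ≤ T ^ (1 - 9 / 1000000000 : ℝ) := by
        rw [hA, ← Real.rpow_add hT0, ← Real.rpow_add hT0]
        exact mono (by norm_num)
      have h5 : A * (A * Dd * T ^ (1 + 1 / 10000000000 - 1 / 100000000 : ℝ)) ≤ T ^ (1 - 9 / 1000000000 : ℝ) := by
        rw [hA, hDd, ← Real.rpow_add hT0, ← Real.rpow_add hT0, ← Real.rpow_add hT0]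
        exact mono (by norm_num)
      have h6 : Lc ^ 8 ≤ Lc ^ 9 := pow_le_pow_right₀ hLc1 (by norm_num)
      set Z := T ^ (1 - 9 / 1000000000 : ℝ) with hZ
      have hZ0 : 0 < Z := by positivity
      calc (2 * Lc) ^ 7 * (7 * (2 * A * R))
          ≤ (2 * Lc) ^ 7 * (7 * (2 * A * (Cb * (4 * Lc ^ 2 * T ^ (2 / 100000000 : ℝ)) * E +
          Cb * A * Dd * (3 * T ^ (1 + 1 / 10000000000 - 1 / 100000000 : ℝ)) * (3 * Lc)))) := by
            refine mul_le_mul_of_nonneg_left (mul_le_mul_of_nonneg_left (mul_le_mul_of_nonneg_left h3 (by positivity)) (by norm_num)) (by positivity)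
        _ = 14336 * Cb * Lc ^ 9 * (A * (T ^ (2 / 100000000 : ℝ) * T ^ (1 - 1 / 10000000 : ℝ))) +
            16128 * Cb * Lc ^ 8 * (A * (A * Dd * T ^ (1 + 1 / 10000000000 - 1 / 100000000 : ℝ))) := by
            rw [hE]
            ring
        _ ≤ 14336 * Cb * Lc ^ 9 * Z + 16128 * Cb * Lc ^ 9 * Z := by
            refine add_le_add (mul_le_mul_of_nonneg_left h4 (by positivity)) ?_
            refine mul_le_mul (mul_le_mul_of_nonneg_left h6 (by positivity)) h5 (by positivity) (by positivity)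
        _ = (2 * 30464 * Cb * Lc ^ 9 * Z) / 2 := by ring
        _ ≤ _ := by linarith
    calc (2 * Lc) ^ 7 * (B * (Cx * Lc ^ 2 * E₀) + 7 * (2 * A * R))
        = (2 * Lc) ^ 7 * (B * (Cx * Lc ^ 2 * E₀)) + (2 * Lc) ^ 7 * (7 * (2 * A * R)) := by ring
      _ ≤ T ^ (1 - 1 / 1000000000 : ℝ) / 2 + T ^ (1 - 1 / 1000000000 : ℝ) / 2 := add_le_add hA₀b hRb
      _ = _ := by ring
  · -- the box lemma
    intro I hI α β hα hβ hαβ
    refine hbox G k N₁ N₂ J (fun l => l ∈ I) E A Dd hJ2 hJN hN (by positivity) (one (by norm_num)) ?_ ?_ ?_ α β hα hβ hαβ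
    · intro n hn1 hn2
      rw [hG]
      unfold offz
      split_ifs with h
      · rw [abs_zero]
        exact hA0.le
      · refine hpw (IF T) (by rw [len_IF26]) (gd_IF26 hT) _ h ?_
        push_cast
        refine (abs_add_le _ _).trans ?_
        rw [Nat.abs_cast]
        have h1 : (n : ℝ) ≤ N₂ := by exact_mod_cast hn2
        linarith
    · intro n hn1 hn2
      refine (hdiv n (by omega)).trans ?_
      have h1 : (n : ℝ) ≤ T ^ (2 : ℕ) := by
        have h2 : (n : ℝ) ≤ N₂ := by exact_mod_cast hn2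
        have : 0 < T ^ (2 : ℕ) := by positivity
        linarith
      have h2 : (n : ℝ) ^ (1 / 4000000000000 : ℝ) ≤ T ^ (1 / 2000000000000 : ℝ) := by
        calc (n : ℝ) ^ (1 / 4000000000000 : ℝ) ≤ (T ^ (2 : ℕ)) ^ (1 / 4000000000000 : ℝ) :=
              Real.rpow_le_rpow (Nat.cast_nonneg _) h1 (by norm_num)
          _ = T ^ (1 / 2000000000000 : ℝ) := by
            rw [hT2, ← Real.rpow_mul hT0.le]
            norm_num
      exact (mul_le_mul_of_nonneg_left h2 hCd.le).trans hd1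
    · intro α' β' M L M₀ L₀ hα' hβ' hβI hML hM hL
      have h1 := hBP k M L M₀ L₀ α' β' hk0 (hkT.trans (mono (by norm_num))) hM hL ?_ hα' hβ' ?_
      · have h2 := rect26 (bF T) k M L M₀ L₀ α' β' hα' hβ' _ h1
        refine h2.trans ?_
        have h3 : ((k.natAbs : ℕ) : ℝ) = |(k : ℝ)| := by
          rw [← Int.cast_abs, Int.abs_eq_natAbs]
          simp
        have h4 : (k.natAbs : ℝ) ^ 2 * |bF T 0| ≤ T ^ (1 - 1 / 10000000 : ℝ) := by
          rw [h3]
          calc |(k : ℝ)| ^ 2 * |bF T 0| ≤ (T ^ (1 / 10000000000 : ℝ)) ^ 2 * T ^ (51 / 100 : ℝ) :=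
                mul_le_mul (pow_le_pow_left₀ (abs_nonneg _) hkT 2) hF0 (abs_nonneg _) (by positivity)
            _ = T ^ (1 / 10000000000 + 1 / 10000000000 + 51 / 100 : ℝ) := by
                rw [pow_two, ← Real.rpow_add hT0, ← Real.rpow_add hT0]
            _ ≤ T ^ (1 - 1 / 10000000 : ℝ) := mono (by norm_num)
        rw [hE]
        linarith
      · have h2 : ((M * L : ℕ) : ℝ) ≤ N₂ := by exact_mod_cast hML
        push_cast at h2
        exact h2.trans (hN₂.trans (mono (by norm_num)))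
      · intro l hl
        have h2 := hpI I hI l (hβI l hl)
        exact ⟨h2.1, h2.2.2.2.1, h2.2.2.2.2.1⟩
  · -- the base
    refine base26 hlam B N₁ N₂ k G (bF T) (Cx * Lc ^ 2) E₀ ?_ (by positivity) (by positivity) hN ?_ ?_
    · intro b hb1 hb2
      refine (hxi B b hb1 hb2).trans ?_
      have h1 : (1 : ℝ) ≤ B := by exact_mod_cast hb1.trans hb2
      have h2 : (B : ℝ) ≤ T := by
        refine hBT'.trans ?_
        calc T ^ (1 / 4000000 : ℝ) ≤ T ^ (1 : ℝ) := mono (by norm_num)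
          _ = T := Real.rpow_one T
      have h3 : Real.log B ≤ Real.log T := Real.log_le_log (by linarith) h2
      have h4 : 0 ≤ Real.log B := Real.log_nonneg h1
      refine mul_le_mul_of_nonneg_left (pow_le_pow_left₀ (by linarith) (by rw [hLc]; linarith) 2) hCx.le
    · intro n hn1 _
      rw [hG]
      unfold offz
      rw [if_neg (hne n hn1)]
    · intro b M₀ M hb1 hb2 hM hMN
      have h1 : (b : ℝ) ≤ B := by exact_mod_cast hb2
      have h2 : (b : ℝ) ≤ T ^ (2 : ℕ) := by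
        refine (h1.trans hBT').trans ?_
        rw [hT2]
        exact mono (by norm_num)
      refine (hBT k b M₀ M hk0 (hkT.trans (mono (by norm_num))) hb1 h2 hM).trans ?_
      have h3 : (M : ℝ) ≤ N₂ := by exact_mod_cast hMN
      have h4 : (0 : ℝ) ≤ T ^ (-(8 / 1000) : ℝ) := by positivity
      rw [hE₀]
      have := mul_le_mul_of_nonneg_right h3 h4
      linarith

end Pool.Agent.AP
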