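import Pool.Agent.Helper56.AP.Defs3
import Pool.Agent.Helper69.FF.DivS

/-!
# Project A' (MP_8958e8): the fixed shifts of `b_2` with `b_2`: preliminaries (block FS22)
-/

open MeasureTheory Set Filter Topology

set_option autoImplicit false

namespace Pool.Agent.AP

/-- `c_I` is small -/
theorem cI_le26 {T : ℝ} (hT : 1 ≤ T) {I : Finset ℕ} (hI : ∀ p ∈ I, p.Prime ∧ (p : ℝ) ≤ T) :
    0 ≤ cI I ∧ cI I ≤ 2 * (1 + Real.log T) := by
  have h1 : ∀ p ∈ I, (0 : ℝ) ≤ 1 / ((p : ℝ) - 1) ∧ 1 / ((p : ℝ) - 1) ≤ 2 * ((p : ℝ))⁻¹ := by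
    intro p hp
    have h2 : (2 : ℝ) ≤ p := by exact_mod_cast (hI p hp).1.two_le
    refine ⟨by apply div_nonneg <;> linarith, ?_⟩
    rw [div_le_iff₀ (by linarith)]
    have h3 : (0 : ℝ) < p := by linarith
    field_simp
    linarith
  refine ⟨Finset.sum_nonneg fun p hp => (h1 p hp).1, ?_⟩
  have h2 : I ⊆ Finset.Icc 1 ⌊T⌋₊ := by
    intro p hp
    rw [Finset.mem_Icc]
    exact ⟨(hI p hp).1.one_le, Nat.le_floor (hI p hp).2⟩
  calc cI I ≤ ∑ p ∈ I, 2 * ((p : ℝ))⁻¹ := Finset.sum_le_sum fun p hp => (h1 p hp).2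
    _ ≤ ∑ p ∈ Finset.Icc 1 ⌊T⌋₊, 2 * ((p : ℝ))⁻¹ :=
        Finset.sum_le_sum_of_subset_of_nonneg h2 fun _ _ _ => by positivity
    _ = 2 * ((harmonic ⌊T⌋₊ : ℚ) : ℝ) := by
        rw [← Finset.mul_sum, harmonic_eq_sum_Icc]
        push_cast
        rfl
    _ ≤ 2 * (1 + Real.log T) := by
        have := harmonic_floor_le_one_add_log T hT
        linarith

/-- `ω_I` is small -/
theorem omI_le26 {I : Finset ℕ} (hI : ∀ p ∈ I, p.Prime) {m : ℤ} (hm : m ≠ 0) :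
    0 ≤ omI I m ∧ omI I m ≤ 2 * (m.natAbs.divisors.card : ℝ) := by
  have h1 : ∀ p ∈ I, (0 : ℝ) ≤ (p : ℝ) / ((p : ℝ) - 1) ∧ (p : ℝ) / ((p : ℝ) - 1) ≤ 2 := by
    intro p hp
    have h2 : (2 : ℝ) ≤ p := by exact_mod_cast (hI p hp).two_le
    refine ⟨by apply div_nonneg <;> linarith, ?_⟩
    rw [div_le_iff₀ (by linarith)]
    linarith
  refine ⟨Finset.sum_nonneg fun p hp => ?_, ?_⟩
  · split_ifs
    · exact (h1 p hp).1
    · exact le_rfl
  · calc omI I m ≤ ∑ p ∈ I, (if (p : ℤ) ∣ m then (2 : ℝ) else 0) := by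
          refine Finset.sum_le_sum fun p hp => ?_
          split_ifs
          · exact (h1 p hp).2
          · exact le_rfl
      _ = 2 * ((I.filter (fun p : ℕ => (p : ℤ) ∣ m)).card : ℝ) := by
          rw [← Finset.sum_filter, Finset.sum_const, nsmul_eq_mul]
          ring
      _ ≤ 2 * (m.natAbs.divisors.card : ℝ) := by
          refine mul_le_mul_of_nonneg_left (Nat.cast_le.2 (Finset.card_le_card ?_)) (by norm_num)
          intro p hp
          rw [Finset.mem_filter] at hp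
          rw [Nat.mem_divisors]
          exact ⟨Int.natCast_dvd.1 hp.2, by simpa using hm⟩

/-- pointwise bound for products -/
theorem prod_le26 {Q : ℝ} (hQ : 0 ≤ Q) (f : Finset ℕ → ℝ) : ∀ Is : List (Finset ℕ), (∀ I ∈ Is, |f I| ≤ Q) →
    |(Is.map f).prod| ≤ Q ^ Is.length
  | [], _ => by simp
  | I :: Is, h => by
    rw [List.map_cons, List.prod_cons, abs_mul, List.length_cons, pow_succ, mul_comm (Q ^ _)]
    exact mul_le_mul (h I (List.mem_cons_self ..)) (prod_le26 hQ f Is fun J hJ => h J (List.mem_cons_of_mem _ hJ))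
      (abs_nonneg _) hQ

theorem bb_le26 {T : ℝ} (hT : 1 ≤ T) (B : ℕ) (Is : List (Finset ℕ)) (hI : ∀ I ∈ Is, ∀ p ∈ I, p.Prime ∧ (p : ℝ) ≤ T)
    {m : ℤ} (hm : m ≠ 0) {D : ℝ} (hD : (m.natAbs.divisors.card : ℝ) ≤ D) :
    |bb B Is m| ≤ |lamR B m| * (2 * (1 + Real.log T) + 2 * D) ^ Is.length := by
  unfold bb
  rw [abs_mul]
  have hlog : 0 ≤ Real.log T := Real.log_nonneg hT
  have hD0 : 0 ≤ D := le_trans (Nat.cast_nonneg _) hD
  refine mul_le_mul_of_nonneg_left (prod_le26 (by positivity) _ Is fun I hIs => ?_) (abs_nonneg _)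
  have h1 := cI_le26 hT (hI I hIs)
  have h2 := omI_le26 (fun p hp => (hI I hIs p hp).1) hm
  rw [abs_le]
  constructor <;> linarith [h1.1, h1.2, h2.1, h2.2]

/-- the multiples of `p` -/
theorem sum_mult26 (p N₁ N₂ : ℕ) (hp : 1 ≤ p) (f : ℕ → ℝ) (g : ℕ → ℝ) :
    ∑ n ∈ Finset.Ioc N₁ N₂, (if p ∣ n then f (n / p) * g n else 0) =
      ∑ m ∈ Finset.Icc 1 N₂, (if N₁ < p * m ∧ p * m ≤ N₂ then f m * g (p * m) else 0) := by
  rw [← Finset.sum_filter, ← Finset.sum_filter]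
  refine Finset.sum_nbij' (fun n => n / p) (fun m => p * m) ?_ ?_ ?_ ?_ ?_
  · intro n hn
    simp only [Finset.mem_filter, Finset.mem_Ioc, Finset.mem_Icc] at hn ⊢
    obtain ⟨⟨h1, h2⟩, j, rfl⟩ := hn
    rw [Nat.mul_div_cancel_left j hp]
    refine ⟨⟨?_, ?_⟩, h1, h2⟩
    · rcases Nat.eq_zero_or_pos j with h | h
      · subst h; omega
      · exact h
    · exact le_trans (Nat.le_mul_of_pos_left j hp) h2
  · intro m hm
    simp only [Finset.mem_filter, Finset.mem_Ioc, Finset.mem_Icc] at hm ⊢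
    exact ⟨⟨hm.2.1, hm.2.2⟩, dvd_mul_right _ _⟩
  · intro n hn
    simp only [Finset.mem_filter] at hn
    exact Nat.mul_div_cancel' hn.2
  · intro m _
    exact Nat.mul_div_cancel_left m hp
  · intro n hn
    simp only [Finset.mem_filter] at hn
    rw [Nat.mul_div_cancel' hn.2]

/-- the telescoped part as a double sum -/
theorem dbl26 (B : ℕ) (Is : List (Finset ℕ)) (I : Finset ℕ) (N₁ N₂ : ℕ) (hI : ∀ p ∈ I, p.Prime ∧ p ≤ N₂)
    (A : ℝ) (hA : A ≠ 0) (G : ℤ → ℝ) (k : ℤ) :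
    ∑ n ∈ Finset.Ioc N₁ N₂, (∑ p ∈ I, (p : ℝ) / ((p : ℝ) - 1) * (if (p : ℤ) ∣ (n : ℤ) then bb B Is ((n : ℤ) / p) else 0)) *
        G (n + k) =
      2 * A * ∑ l ∈ Finset.Icc 1 N₂, ∑ m ∈ Finset.Icc 1 N₂, (if l ∈ I then (l : ℝ) / ((l : ℝ) - 1) / 2 else 0) *
        (if 1 ≤ m ∧ m ≤ N₂ then bb B Is (m : ℤ) / A else 0) *
          (if N₁ < l * m ∧ l * m ≤ N₂ then G ((l * m : ℕ) + k) else 0) := by
  have hsub : I ⊆ Finset.Icc 1 N₂ := by
    intro p hp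
    rw [Finset.mem_Icc]
    exact ⟨(hI p hp).1.one_le, (hI p hp).2⟩
  have h1 : ∀ l ∈ Finset.Icc 1 N₂, l ∉ I → ∑ m ∈ Finset.Icc 1 N₂, (if l ∈ I then (l : ℝ) / ((l : ℝ) - 1) / 2 else 0) *
        (if 1 ≤ m ∧ m ≤ N₂ then bb B Is (m : ℤ) / A else 0) *
          (if N₁ < l * m ∧ l * m ≤ N₂ then G ((l * m : ℕ) + k) else 0) = 0 := by
    intro l _ hl
    refine Finset.sum_eq_zero fun m _ => ?_
    rw [if_neg hl]
    ring
  rw [← Finset.sum_subset hsub h1, Finset.mul_sum]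
  simp only [Finset.sum_mul]
  rw [Finset.sum_comm]
  refine Finset.sum_congr rfl fun p hp => ?_
  have h2 : ∀ n ∈ Finset.Ioc N₁ N₂, (p : ℝ) / ((p : ℝ) - 1) * (if (p : ℤ) ∣ (n : ℤ) then bb B Is ((n : ℤ) / p) else 0) * G (n + k) =
      (p : ℝ) / ((p : ℝ) - 1) * (if p ∣ n then bb B Is ((n / p : ℕ) : ℤ) * G (n + k) else 0) := by
    intro n _
    by_cases h : p ∣ n
    · rw [if_pos (Int.natCast_dvd_natCast.2 h), if_pos h, Int.natCast_div]
      ring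
    · rw [if_neg (fun h' => h (Int.natCast_dvd_natCast.1 h')), if_neg h]
      ring
  rw [Finset.sum_congr rfl h2, ← Finset.mul_sum,
    sum_mult26 p N₁ N₂ (hI p hp).1.one_le (fun n => bb B Is (n : ℤ)) (fun n => G ((n : ℤ) + k)),
    Finset.mul_sum, Finset.mul_sum]
  refine Finset.sum_congr rfl fun m hm => ?_
  rw [Finset.mem_Icc] at hm
  rw [if_pos hp, if_pos hm]
  split_ifs with h3
  · field_simp
  · ring

end Pool.Agent.AP
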