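import Pool.Agent.Helper56.AP.Stmts
import Pool.Agent.Helper26.AP.FSa

/-!
# Project A' (MP_8958e8): the fixed shifts of `b_2` with `b_2`: induction over the list (block FS22)
-/

open MeasureTheory Set Filter Topology

set_option autoImplicit false

namespace Pool.Agent.AP

/-- the function off zero -/
noncomputable def offz (F : ℤ → ℝ) (n : ℤ) : ℝ := if n = 0 then 0 else F n

/-- induction over the list -/
theorem ind26 (htel : Stmt_telescope) (B N₁ N₂ : ℕ) (k : ℤ) (G : ℤ → ℝ) (K A R A₀ : ℝ) (n₀ : ℕ) (hK : 1 ≤ K) (hA : 0 < A) (hR : 0 ≤ R)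
    (hA₀ : 0 ≤ A₀) (Good : Finset ℕ → Prop) (hG : ∀ I, Good I → (∀ p ∈ I, p.Prime ∧ B < p ∧ p ≤ N₂) ∧ 0 ≤ cI I ∧ cI I ≤ K)
    (hbb : ∀ Is : List (Finset ℕ), Is.length ≤ n₀ → (∀ I ∈ Is, Good I) → ∀ m : ℕ, 1 ≤ m → m ≤ N₂ → |bb B Is (m : ℤ)| ≤ A)
    (hbox : ∀ I, Good I → ∀ (α β : ℕ → ℝ), (∀ m, |α m| ≤ 1) → (∀ l, |β l| ≤ 1) → (∀ l, β l ≠ 0 → l ∈ I) →
      |∑ l ∈ Finset.Icc 1 N₂, ∑ m ∈ Finset.Icc 1 N₂, β l * α m * (if N₁ < l * m ∧ l * m ≤ N₂ then G ((l * m : ℕ) + k) else 0)| ≤ R)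
    (hbase : |∑ n ∈ Finset.Ioc N₁ N₂, lamR B (n : ℤ) * G (n + k)| ≤ A₀) :
    ∀ Is : List (Finset ℕ), Is.length ≤ n₀ + 1 → (∀ I ∈ Is, Good I) → Is.Pairwise (fun I J => Disjoint I J) →
      |∑ n ∈ Finset.Ioc N₁ N₂, bb B Is (n : ℤ) * G (n + k)| ≤ K ^ Is.length * (A₀ + Is.length * (2 * A * R))
  | [], _, _, _ => by
    have h : ∀ n ∈ Finset.Ioc N₁ N₂, bb B [] (n : ℤ) * G (n + k) = lamR B (n : ℤ) * G (n + k) := by
      intro n _
      simp [bb]
    rw [Finset.sum_congr rfl h]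
    simpa using hbase
  | I :: Is, hlen, hgood, hdis => by
    have hlen' : Is.length ≤ n₀ := by simpa using hlen
    have hI : Good I := hgood I (List.mem_cons_self ..)
    have hIs : ∀ J ∈ Is, Good J := fun J hJ => hgood J (List.mem_cons_of_mem _ hJ)
    rw [List.pairwise_cons] at hdis
    have ih := ind26 htel B N₁ N₂ k G K A R A₀ n₀ hK hA hR hA₀ Good hG hbb hbox hbase Is (by omega) hIs hdis.2
    obtain ⟨hIp, hc0, hc1⟩ := hG I hI
    -- telescope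
    have h1 : ∀ n ∈ Finset.Ioc N₁ N₂, bb B (I :: Is) (n : ℤ) * G (n + k) = cI I * (bb B Is (n : ℤ) * G (n + k)) -
        (∑ p ∈ I, (p : ℝ) / ((p : ℝ) - 1) * (if (p : ℤ) ∣ (n : ℤ) then bb B Is ((n : ℤ) / p) else 0)) * G (n + k) := by
      intro n _
      rw [htel B Is (fun J hJ p hp => ⟨((hG J (hIs J hJ)).1 p hp).1, ((hG J (hIs J hJ)).1 p hp).2.1⟩) hdis.2 I
        (fun p hp => ⟨(hIp p hp).1, (hIp p hp).2.1⟩) hdis.1 (n : ℤ)]
      ring
    rw [Finset.sum_congr rfl h1, Finset.sum_sub_distrib, ← Finset.mul_sum,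
      dbl26 B Is I N₁ N₂ (fun p hp => ⟨(hIp p hp).1, (hIp p hp).2.2⟩) A hA.ne' G k]
    have h2 := hbox I hI (fun m => if 1 ≤ m ∧ m ≤ N₂ then bb B Is (m : ℤ) / A else 0)
      (fun l => if l ∈ I then (l : ℝ) / ((l : ℝ) - 1) / 2 else 0) ?_ ?_ ?_
    · have h3 : |2 * A * ∑ l ∈ Finset.Icc 1 N₂, ∑ m ∈ Finset.Icc 1 N₂, (if l ∈ I then (l : ℝ) / ((l : ℝ) - 1) / 2 else 0) *
        (if 1 ≤ m ∧ m ≤ N₂ then bb B Is (m : ℤ) / A else 0) *
          (if N₁ < l * m ∧ l * m ≤ N₂ then G ((l * m : ℕ) + k) else 0)| ≤ 2 * A * R := by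
        rw [abs_mul, abs_of_pos (by positivity)]
        exact mul_le_mul_of_nonneg_left h2 (by positivity)
      have h4 : |cI I * ∑ n ∈ Finset.Ioc N₁ N₂, bb B Is (n : ℤ) * G (n + k)| ≤
          K * (K ^ Is.length * (A₀ + Is.length * (2 * A * R))) := by
        rw [abs_mul, abs_of_nonneg hc0]
        exact mul_le_mul hc1 ih (abs_nonneg _) (by linarith)
      have h5 : (1 : ℝ) ≤ K ^ (Is.length + 1) := one_le_pow₀ hK
      have h6 : 2 * A * R ≤ K ^ (Is.length + 1) * (2 * A * R) := by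
        have : 0 ≤ 2 * A * R := by positivity
        nlinarith
      refine (abs_sub _ _).trans ((add_le_add h4 h3).trans ?_)
      rw [List.length_cons]
      push_cast
      calc K * (K ^ Is.length * (A₀ + Is.length * (2 * A * R))) + 2 * A * R
          ≤ K * (K ^ Is.length * (A₀ + Is.length * (2 * A * R))) + K ^ (Is.length + 1) * (2 * A * R) := by linarith
        _ = K ^ (Is.length + 1) * (A₀ + (Is.length + 1) * (2 * A * R)) := by ring
    · intro m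
      split_ifs with h
      · rw [abs_div, abs_of_pos hA, div_le_one hA]
        exact hbb Is hlen' hIs m h.1 h.2
      · simp
    · intro l
      split_ifs with h
      · have h3 : (2 : ℝ) ≤ l := by exact_mod_cast (hIp l h).1.two_le
        rw [abs_of_nonneg (by apply div_nonneg (div_nonneg _ _) <;> linarith)]
        rw [div_le_one (by norm_num), div_le_iff₀ (by linarith)]
        linarith
      · simp
    · intro l hl
      by_contra h
      simp [h] at hl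

/-- the base: `Λ_B` -/
theorem base26 (hlam : Stmt_lamR_eq) (B N₁ N₂ : ℕ) (k : ℤ) (G F : ℤ → ℝ) (X E : ℝ) (hX : ∀ b, 1 ≤ b → b ≤ B → |xi B b| ≤ X)
    (hX0 : 0 ≤ X) (hE0 : 0 ≤ E) (hN : N₁ ≤ N₂)
    (hGF : ∀ n : ℕ, N₁ < n → n ≤ N₂ → G (n + k) = F (n + k))
    (hT : ∀ b M₀ M : ℕ, 1 ≤ b → b ≤ B → M₀ ≤ M → M ≤ N₂ → |∑ m ∈ Finset.Ioc M₀ M, F (b * m + k)| ≤ E) :
    |∑ n ∈ Finset.Ioc N₁ N₂, lamR B (n : ℤ) * G (n + k)| ≤ B * (X * E) := by
  have h1 : ∑ n ∈ Finset.Ioc N₁ N₂, lamR B (n : ℤ) * G (n + k) =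
      ∑ b ∈ Finset.Icc 1 B, xi B b * ∑ m ∈ Finset.Ioc (N₁ / b) (N₂ / b), F (b * m + k) := by
    have h2 : ∀ n ∈ Finset.Ioc N₁ N₂, lamR B (n : ℤ) * G (n + k) =
        ∑ b ∈ Finset.Icc 1 B, xi B b * (if b ∣ n then 1 * F ((n : ℤ) + k) else 0) := by
      intro n hn
      rw [Finset.mem_Ioc] at hn
      rw [hlam B (n : ℤ), hGF n hn.1 hn.2, Finset.sum_mul, Finset.sum_filter]
      refine Finset.sum_congr rfl fun b _ => ?_
      by_cases h : b ∣ n
      · rw [if_pos (Int.natCast_dvd_natCast.2 h), if_pos h, one_mul]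
      · rw [if_neg (fun h' => h (Int.natCast_dvd_natCast.1 h')), if_neg h, mul_zero]
    rw [Finset.sum_congr rfl h2, Finset.sum_comm]
    refine Finset.sum_congr rfl fun b hb => ?_
    rw [Finset.mem_Icc] at hb
    rw [← Finset.mul_sum]
    congr 1
    have h3 := sum_mult26 b N₁ N₂ hb.1 (fun _ => 1) (fun n => F ((n : ℤ) + k))
    simp only [one_mul] at h3 ⊢
    rw [h3, ← Finset.sum_filter]
    refine Finset.sum_congr ?_ fun m _ => ?_
    · ext m
      simp only [Finset.mem_filter, Finset.mem_Icc, Finset.mem_Ioc]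
      have hb0 : 0 < b := hb.1
      rw [Nat.div_lt_iff_lt_mul hb0, Nat.le_div_iff_mul_le hb0, mul_comm m b]
      constructor
      · rintro ⟨_, h4, h5⟩
        exact ⟨h4, h5⟩
      · rintro ⟨h4, h5⟩
        refine ⟨⟨?_, ?_⟩, h4, h5⟩
        · rcases Nat.eq_zero_or_pos m with h | h
          · subst h; omega
          · exact h
        · exact le_trans (Nat.le_mul_of_pos_left m hb0) h5
    · push_cast
      rfl
  rw [h1]
  refine (Finset.abs_sum_le_sum_abs _ _).trans ?_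
  calc ∑ b ∈ Finset.Icc 1 B, |xi B b * ∑ m ∈ Finset.Ioc (N₁ / b) (N₂ / b), F (b * m + k)|
      ≤ ∑ b ∈ Finset.Icc 1 B, X * E := by
        refine Finset.sum_le_sum fun b hb => ?_
        rw [Finset.mem_Icc] at hb
        rw [abs_mul]
        exact mul_le_mul (hX b hb.1 hb.2) (hT b _ _ hb.1 hb.2 (Nat.div_le_div_right hN) (Nat.div_le_self _ _)) (abs_nonneg _) hX0
    _ = B * (X * E) := by rw [Finset.sum_const, Nat.card_Icc, nsmul_eq_mul, Nat.add_sub_cancel]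

/-- rectangles: from `F` to `F` off zero -/
theorem rect26 (F : ℤ → ℝ) (k : ℤ) (M L M₀ L₀ : ℕ) (α β : ℕ → ℝ) (hα : ∀ m, |α m| ≤ 1) (hβ : ∀ l, |β l| ≤ 1) (E : ℝ)
    (h : |∑ m ∈ Finset.Ioc M₀ M, ∑ l ∈ Finset.Ioc L₀ L, α m * β l * F (m * l + k)| ≤ E) :
    |∑ m ∈ Finset.Ioc M₀ M, ∑ l ∈ Finset.Ioc L₀ L, α m * β l * offz F (m * l + k)| ≤ E + (k.natAbs : ℝ) ^ 2 * |F 0| := by
  have h1 : ∑ m ∈ Finset.Ioc M₀ M, ∑ l ∈ Finset.Ioc L₀ L, α m * β l * offz F (m * l + k) =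
      ∑ m ∈ Finset.Ioc M₀ M, ∑ l ∈ Finset.Ioc L₀ L, α m * β l * F (m * l + k) -
      ∑ m ∈ Finset.Ioc M₀ M, ∑ l ∈ Finset.Ioc L₀ L, (if (m : ℤ) * l + k = 0 then α m * β l * F 0 else 0) := by
    rw [← Finset.sum_sub_distrib]
    refine Finset.sum_congr rfl fun m _ => ?_
    rw [← Finset.sum_sub_distrib]
    refine Finset.sum_congr rfl fun l _ => ?_
    unfold offz
    split_ifs with h2
    · rw [h2]; ring
    · ring
  rw [h1]
  refine (abs_sub _ _).trans (add_le_add h ?_)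
  have h2 : ∀ m l : ℕ, |(if (m : ℤ) * l + k = 0 then α m * β l * F 0 else 0)| ≤
      if (m : ℤ) * l + k = 0 then |F 0| else 0 := by
    intro m l
    split_ifs
    · rw [abs_mul, abs_mul]
      have := mul_le_one₀ (hα m) (abs_nonneg _) (hβ l)
      have h3 := mul_le_mul_of_nonneg_right this (abs_nonneg (F 0))
      linarith
    · simp
  calc |∑ m ∈ Finset.Ioc M₀ M, ∑ l ∈ Finset.Ioc L₀ L, (if (m : ℤ) * l + k = 0 then α m * β l * F 0 else 0)|
      ≤ ∑ m ∈ Finset.Ioc M₀ M, ∑ l ∈ Finset.Ioc L₀ L, (if (m : ℤ) * l + k = 0 then |F 0| else 0) := by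
        refine (Finset.abs_sum_le_sum_abs _ _).trans (Finset.sum_le_sum fun m _ => ?_)
        exact (Finset.abs_sum_le_sum_abs _ _).trans (Finset.sum_le_sum fun l _ => h2 m l)
    _ = (((Finset.Ioc M₀ M ×ˢ Finset.Ioc L₀ L).filter (fun x : ℕ × ℕ => (x.1 : ℤ) * x.2 + k = 0)).card : ℝ) * |F 0| := by
        rw [← Finset.sum_product', ← Finset.sum_filter, Finset.sum_const, nsmul_eq_mul]
    _ ≤ (k.natAbs : ℝ) ^ 2 * |F 0| := by
        refine mul_le_mul_of_nonneg_right ?_ (abs_nonneg _)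
        have h3 : (Finset.Ioc M₀ M ×ˢ Finset.Ioc L₀ L).filter (fun x : ℕ × ℕ => (x.1 : ℤ) * x.2 + k = 0) ⊆
            Finset.Icc 1 k.natAbs ×ˢ Finset.Icc 1 k.natAbs := by
          rintro ⟨m, l⟩ hx
          simp only [Finset.mem_filter, Finset.mem_product, Finset.mem_Ioc, Finset.mem_Icc] at hx ⊢
          obtain ⟨⟨⟨hm1, _⟩, hl1, _⟩, h4⟩ := hx
          have h5 : k.natAbs = m * l := by
            have h6 : k = -((m * l : ℕ) : ℤ) := by push_cast; linarith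
            rw [h6, Int.natAbs_neg, Int.natAbs_natCast]
          rw [h5]
          have hm : 1 ≤ m := by omega
          have hl : 1 ≤ l := by omega
          exact ⟨⟨hm, Nat.le_mul_of_pos_right m hl⟩, hl, Nat.le_mul_of_pos_left l hm⟩
        have h4 := Finset.card_le_card h3
        rw [Finset.card_product, Nat.card_Icc, Nat.add_sub_cancel] at h4
        calc (((Finset.Ioc M₀ M ×ˢ Finset.Ioc L₀ L).filter (fun x : ℕ × ℕ => (x.1 : ℤ) * x.2 + k = 0)).card : ℝ)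
            ≤ ((k.natAbs * k.natAbs : ℕ) : ℝ) := Nat.cast_le.2 h4
          _ = (k.natAbs : ℝ) ^ 2 := by push_cast; ring

end Pool.Agent.AP
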